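import Pool.Agent.H9x.SP.Pair

/-!
# The two distributions are not distinguished
-/

set_option autoImplicit false
set_option linter.unusedSectionVars false

namespace Pool.Agent.H9x.SP

open Finset H568R2 Pool.Agent.H676 Pool.Agent.H620R2.Gauge Pool.Agent.NPC Pool.Agent.H591R3.PHG

open Pool.Agent.H591R3.PHG.FinalAux (DTv)
open Pool.Agent.H9x.RU (dtr_of_dtv)

/-- a shallow decision tree has the same value at the zero vector and at most unit vectors -/
theorem few_change {I : Type} [Fintype I] [DecidableEq I] {R : ℕ} {f : (I → Bool) → Bool}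
    (h : DTr R f) : ∃ A : Finset I, A.card ≤ R ∧ ∀ i, i ∉ A → f (one i) = f (fun _ => false) := by
  obtain ⟨A, hA, hA2⟩ := h.cert (f fun _ => false) (fun _ => false) rfl
  refine ⟨A, hA, fun i hi => hA2 _ fun j hj => ?_⟩
  unfold one
  have : j ≠ i := fun h => hi (h ▸ hj)
  simp [this]

theorem live_ge {t : ℝ} (ht0 : 0 < t) (ht1 : t < 1) {c : ℕ} {σ : Fin c → Option Bool}
    (h : Good t (1 / 256) 0 σ) : 1 / (256 * t) ≤ ((live σ).card : ℝ) := by
  have h1 := h.2.2.2
  rw [Nat.sub_zero] at h1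
  have h2 : 1 - ((live σ).card : ℝ) * t ≤ (1 - t) ^ (live σ).card := by
    have := one_add_mul_le_pow (a := -t) (by linarith) (live σ).card
    calc 1 - ((live σ).card : ℝ) * t = 1 + (live σ).card * -t := by ring
      _ ≤ (1 + -t) ^ (live σ).card := this
      _ = _ := by ring_nf
  have h3 : 1 / 256 ≤ ((live σ).card : ℝ) * t := by linarith
  rw [div_le_iff₀ (by positivity)]
  nlinarith

/-- **The last step.** -/
theorem Fn_diff {t : ℝ} (ht0 : 0 < t) (ht1 : t < 1) {c R : ℕ} (s : Unit × Fin c → Option Bool)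
    {f : (Unit × Fin c → Bool) → Bool} (hf : DTr R f) :
    |Fn t true s (br f) - Fn t false s (br f)| ≤ R * (256 * t) := by
  obtain ⟨A, hA, hA2⟩ := few_change hf
  unfold Fn
  by_cases hg : Good t (1 / 256) 0 (fun i => s ((), i))
  · rw [if_pos hg, if_pos hg]
    simp only [if_true, Bool.false_eq_true, if_false]
    set L := live (fun i => s ((), i)) with hL
    have hpos := live_pos (by norm_num) hg
    rw [← hL] at hpos
    have hge := live_ge ht0 ht1 hg
    rw [← hL] at hge
    have hposR : (0 : ℝ) < L.card := by exact_mod_cast hpos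
    set f0 := f (fun _ => false) with hf0
    have e1 : br f (fun _ => false) = (L.card : ℝ)⁻¹ * ∑ i ∈ L, br f (fun _ => false) := by
      rw [sum_const, nsmul_eq_mul]
      field_simp
    rw [e1, ← mul_sub, ← sum_sub_distrib]
    rw [abs_mul, abs_of_pos (by positivity)]
    have e2 : |∑ i ∈ L, (br f (fun _ => false) - br f (one ((), i)))| ≤ R := by
      refine (abs_sum_le_sum_abs _ _).trans ?_
      calc ∑ i ∈ L, |br f (fun _ => false) - br f (one ((), i))|
          ≤ ∑ i ∈ L, (if ((), i) ∈ A then (1 : ℝ) else 0) := by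
            refine sum_le_sum fun i _ => ?_
            split_ifs with hi
            · unfold br
              split_ifs <;> norm_num
            · unfold br
              rw [hA2 _ hi, sub_self, abs_zero]
        _ = ((L.filter (fun i => (((), i) : Unit × Fin c) ∈ A)).card : ℝ) := by
            rw [sum_ite, sum_const_zero, add_zero, sum_const, nsmul_eq_mul, mul_one]
        _ ≤ (A.card : ℝ) := by
            have h3 : (L.filter (fun i => (((), i) : Unit × Fin c) ∈ A)).card ≤ A.card := by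
              refine card_le_card_of_injOn (fun i => (((), i) : Unit × Fin c)) (fun i hi => ?_) ?_
              · rw [mem_coe, mem_filter] at hi
                exact hi.2
              · intro i _ j _ hij
                exact (Prod.mk.inj hij).2
            exact_mod_cast h3
        _ ≤ R := by exact_mod_cast hA
    calc (L.card : ℝ)⁻¹ * |∑ i ∈ L, (br f (fun _ => false) - br f (one ((), i)))|
        ≤ (L.card : ℝ)⁻¹ * R := mul_le_mul_of_nonneg_left e2 (inv_nonneg.2 hposR.le)
      _ ≤ (256 * t) * R := by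
          refine mul_le_mul_of_nonneg_right ?_ (Nat.cast_nonneg _)
          rw [inv_le_comm₀ hposR (by linarith)]
          rw [← one_div]
          exact hge
      _ = _ := by ring
  · rw [if_neg hg, if_neg hg, sub_zero, abs_zero]
    positivity

/-- the total depth -/
theorem dtr_comb {I : Type} [Fintype I] [DecidableEq I] {X : Type} [Fintype X] [DecidableEq X]
    {r : ℕ} {g : X → (I → Bool) → Bool} (h : ∀ j, DTr r (g j)) (Ψ : (X → Bool) → Bool) :
    DTr (r * Fintype.card X) (fun z => Ψ (fun j => g j z)) :=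
  dtr_of_dtv ((DTv.all h).map Ψ)

theorem adm {n : ℕ} (hn : 5 ≤ n) :
    Adm (1 / 2 ^ (4 * n)) (1 / 2 ^ (2 * n)) (8 * n * 2 ^ (4 * n)) := by
  set t : ℝ := 1 / 2 ^ (4 * n) with ht
  set ξ : ℝ := 1 / 2 ^ (2 * n) with hξ
  set smin : ℕ := 8 * n * 2 ^ (4 * n) with hsmin
  have ht0 : 0 < t := by positivity
  have ht2 : t ≤ 1 / 2 := by
    rw [ht]
    apply one_div_le_one_div_of_le (by norm_num)
    calc (2 : ℝ) = 2 ^ 1 := by norm_num
      _ ≤ 2 ^ (4 * n) := pow_le_pow_right₀ (by norm_num) (by omega)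
  have ht1 : t < 1 := by linarith
  have hξ0 : 0 < ξ := by positivity
  have hξ1 : ξ ≤ 1 := by
    rw [hξ, div_le_one (by positivity)]
    exact one_le_pow₀ (by norm_num)
  have hs1 : 1 ≤ smin := by
    rw [hsmin]
    have : 0 < 8 * n * 2 ^ (4 * n) := by positivity
    omega
  obtain ⟨hl1, -, -⟩ := lam_bound (u := 0) hn (by omega)
  have hlam4 : (1 : ℝ) / 2 ^ (6 * n) ≤ 1 / 4 := by
    apply one_div_le_one_div_of_le (by norm_num)
    calc (4 : ℝ) = 2 ^ 2 := by norm_num
      _ ≤ 2 ^ (6 * n) := pow_le_pow_right₀ (by norm_num) (by omega)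
  refine ⟨ht0, ht1, hξ0.le, hξ1, hs1, ?_⟩
  have h1 : (1 - t) ^ smin / t ≤ 1 / 4 := hl1.trans hlam4
  have h2 : (1 - t) ^ smin ≤ 1 / 4 := by
    have h3 : (1 - t) ^ smin ≤ 1 / 4 * t := (div_le_iff₀ ht0).1 h1
    nlinarith
  have h0 : 0 ≤ (1 - t) ^ smin := pow_nonneg (by linarith) _
  have h5 : 0 ≤ (1 - t) ^ smin / t := by positivity
  have h3 : (1 - ξ) * (1 - t) ^ smin / t ≤ (1 - t) ^ smin / t := by
    rw [mul_div_assoc]
    nlinarith
  have h4 : ξ * (1 - t) ^ smin ≤ (1 - t) ^ smin := by nlinarith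
  linarith

/-- differences of averages of functions with values in the unit interval -/
theorem Av_diff_le {t ξ : ℝ} {smin : ℕ} (hA : Adm t ξ smin) (cs : List ℕ)
    (s : Idx Unit cs → Option Bool) (f : (Idx Unit cs → Bool) → Bool) :
    |Av t ξ smin true cs s (br f) - Av t ξ smin false cs s (br f)| ≤ 1 := by
  have h0 : ∀ b, 0 ≤ Av t ξ smin b cs s (br f) := fun b => by
    rw [← Av_zero (t := t) (ξ := ξ) (smin := smin) b cs s]
    exact Av_mono hA b cs s fun z => by unfold br; split_ifs <;> norm_num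
  have h1 : ∀ b, Av t ξ smin b cs s (br f) ≤ 1 := fun b => by
    refine le_trans ?_ (Av_le hA b cs s)
    exact Av_mono hA b cs s fun z => by unfold br; split_ifs <;> norm_num
  rw [abs_le]
  constructor
  · linarith [h0 true, h1 false]
  · linarith [h0 false, h1 true]

/-- **Few alternations do not distinguish.** -/
theorem diff_ind {X : Type} [Fintype X] [DecidableEq X] {n u : ℕ} (hn : 5 ≤ n)
    (hu : 8 * u ≤ n) :
    ∀ (k : ℕ) (cs : List ℕ), cs.length = k + 1 → ∀ (s : Idx Unit cs → Option Bool) (m ℓ : ℕ)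
      (F : List Bool → (Idx Unit cs → Bool) → Bool),
      (∀ y : List Bool, y.length ≤ ℓ + k * (2 * m + 1) → DTr (2 ^ (2 * u)) (F y)) →
      ∀ (y : X → List Bool), (∀ j, (y j).length ≤ ℓ) → ∀ (b : Bool) (Ψ : (X → Bool) → Bool),
      |Av (1 / 2 ^ (4 * n)) (1 / 2 ^ (2 * n)) (8 * n * 2 ^ (4 * n)) true cs s
          (br (fun z => Ψ (fun j => QF m F k b (y j) z))) -
        Av (1 / 2 ^ (4 * n)) (1 / 2 ^ (2 * n)) (8 * n * 2 ^ (4 * n)) false cs s
          (br (fun z => Ψ (fun j => QF m F k b (y j) z)))| ≤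
        k * (2 ^ (ℓ + k * (2 * m + 1) + 2) * (1 / 2) ^ (2 ^ (2 * u) + 1)) +
        ((2 ^ (2 * u) * Fintype.card X : ℕ) : ℝ) * (256 * (1 / 2 ^ (4 * n))) := by
  classical
  have hA := adm hn
  set t : ℝ := 1 / 2 ^ (4 * n) with ht
  set ξ : ℝ := 1 / 2 ^ (2 * n) with hξ
  set smin : ℕ := 8 * n * 2 ^ (4 * n) with hsmin
  set r : ℕ := 2 ^ (2 * u) with hr
  have ht2 : t ≤ 1 / 2 := by
    rw [ht]
    apply one_div_le_one_div_of_le (by norm_num)
    calc (2 : ℝ) = 2 ^ 1 := by norm_num
      _ ≤ 2 ^ (4 * n) := pow_le_pow_right₀ (by norm_num) (by omega)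
  have hξ0 : 0 < ξ := by positivity
  have hr1 : 1 ≤ r := Nat.one_le_two_pow
  obtain ⟨hl1, hl2, hl3⟩ := lam_bound hn hu
  have hlam4 : (1 : ℝ) / 2 ^ (6 * n) ≤ 1 / 4 := by
    apply one_div_le_one_div_of_le (by norm_num)
    calc (4 : ℝ) = 2 ^ 2 := by norm_num
      _ ≤ 2 ^ (6 * n) := pow_le_pow_right₀ (by norm_num) (by omega)
  set E : ℝ := ((r * Fintype.card X : ℕ) : ℝ) * (256 * t) with hE
  have hE0 : 0 ≤ E := by have := hA.t0; positivity
  intro k
  induction k with
  | zero =>
    intro cs hcs s m ℓ F hF y hy b Ψ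
    match cs, hcs with
    | [c], _ =>
      have hD : DTr (r * Fintype.card X) (fun z => Ψ (fun j => QF m F 0 b (y j) z)) := by
        refine dtr_comb (fun j => ?_) Ψ
        have e0 : QF m F 0 b (y j) = F (y j) := by cases b <;> rfl
        rw [e0]
        exact hF (y j) (by have := hy j; omega)
      have h1 := Fn_diff (c := c) hA.t0 hA.t1 s hD
      rw [Av_one, Av_one]
      push_cast
      push_cast at h1
      rw [zero_mul, zero_add]
      rw [hE]
      push_cast
      exact h1
  | succ k ih =>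
    intro cs hcs s m ℓ F hF y hy b Ψ
    match cs, hcs with
    | c :: cs, hcs =>
      have hlen : cs.length = k + 1 := by simpa using hcs
      have hne : cs ≠ [] := by
        intro h; rw [h] at hlen; simp at hlen
      rw [Av_two _ _ _ _ _ _ hne, Av_two _ _ _ _ _ _ hne]
      have hℓ : ℓ + (k + 1) * (2 * m + 1) = ℓ + k * (2 * m + 1) + (2 * m + 1) := by ring
      have hsw := stage_switch (G := Idx Unit cs) (c := c) (smin := smin) (r := r) (t := t)
        (t' := t) (ξ := ξ) (lam := 1 / 2 ^ (6 * n)) hA.t0 ht2 hA.t0 hA.t1.le hξ0 hA.x1 hA.s1 hl1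
        hlam4 hr1 hl3 s m
        (ℓ + k * (2 * m + 1)) F (fun y' hy' => hF y' (by rw [hℓ]; exact hy'))
      set bad : (Idx Unit cs → St c) → Prop := fun ρ => ¬ ∀ y : List Bool,
        y.length ≤ ℓ + k * (2 * m + 1) → ∀ b,
        DTr r (fun z : Idx Unit cs → Bool => QF m F 1 b y (XX s ρ z)) with hbad
      have hnn : ∀ ρ : Idx Unit cs → St c, 0 ≤ wt (G := Idx Unit cs) t t ξ smin s ρ := fun ρ =>
        hA.wt s ρ
      set E₁ : ℝ := k * (2 ^ (ℓ + k * (2 * m + 1) + 2) * (1 / 2) ^ (r + 1)) with hE₁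
      have hE₁0 : 0 ≤ E₁ := by positivity
      rw [← sum_sub_distrib]
      have hterm : ∀ ρ : Idx Unit cs → St c, |wt (G := Idx Unit cs) t t ξ smin s ρ *
          Av t ξ smin true cs (fun h => (ρ h).1) (fun z =>
            br (fun z => Ψ (fun j => QF m F (k + 1) b (y j) z)) (XX (G := Idx Unit cs) s ρ z)) -
          wt (G := Idx Unit cs) t t ξ smin s ρ *
          Av t ξ smin false cs (fun h => (ρ h).1) (fun z =>
            br (fun z => Ψ (fun j => QF m F (k + 1) b (y j) z)) (XX (G := Idx Unit cs) s ρ z))|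
          ≤ wt (G := Idx Unit cs) t t ξ smin s ρ * (if bad ρ then (1 : ℝ) else 0) +
            wt (G := Idx Unit cs) t t ξ smin s ρ * (E₁ + E) := by
        intro ρ
        rw [← mul_add, ← mul_sub, abs_mul, abs_of_nonneg (hnn ρ)]
        apply mul_le_mul_of_nonneg_left _ (hnn ρ)
        by_cases hb : bad ρ
        · rw [if_pos hb]
          have h3 := Av_diff_le hA cs (fun h => (ρ h).1)
            (fun z => Ψ (fun j => QF m F (k + 1) b (y j) (XX (G := Idx Unit cs) s ρ z)))
          refine le_trans h3 ?_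
          linarith
        · rw [if_neg hb, zero_add]
          have hgood : ∀ y : List Bool, y.length ≤ ℓ + k * (2 * m + 1) → ∀ b,
            DTr r (fun z : Idx Unit cs → Bool => QF m F 1 b y (XX s ρ z)) := not_not.1 hb
          have h5 := ih cs hlen (fun h => (ρ h).1) m ℓ
            (fun y' z => QF m F 1 (bot b k) y' (XX (G := Idx Unit cs) s ρ z))
            (fun y' hy' => hgood y' hy' _) y hy b Ψ
          have hfun : (fun z => br (fun z => Ψ (fun j => QF m F (k + 1) b (y j) z))
              (XX (G := Idx Unit cs) s ρ z)) = br (fun z => Ψ (fun j => QF m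
                (fun y' z => QF m F 1 (bot b k) y' (XX (G := Idx Unit cs) s ρ z)) k b (y j) z)) := by
            funext z
            have : (fun j => QF m F (k + 1) b (y j) (XX (G := Idx Unit cs) s ρ z)) = fun j =>
                QF m (fun y' z => QF m F 1 (bot b k) y' (XX (G := Idx Unit cs) s ρ z)) k b
                  (y j) z := by
              funext j
              rw [QF_peel, QF_comp m (fun y' => QF m F 1 (bot b k) y') (XX (G := Idx Unit cs) s ρ)]
            exact congrArg (fun v => if Ψ v = true then (1 : ℝ) else 0) this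
          rw [hfun]
          exact h5
      refine (abs_sum_le_sum_abs _ _).trans ?_
      refine (Finset.sum_le_sum fun ρ _ => hterm ρ).trans ?_
      rw [Finset.sum_add_distrib, ← Finset.sum_mul, wt_sum hA.t0 hA.t1 hA.t0 hA.s1 s, one_mul]
      have h6 : 2 ^ (ℓ + k * (2 * m + 1) + 2) * (16 * (r : ℝ) * (1 / 2 ^ (6 * n))) ^ (r + 1) ≤
          2 ^ (ℓ + (k + 1) * (2 * m + 1) + 2) * (1 / 2) ^ (r + 1) := by
        apply mul_le_mul
        · apply pow_le_pow_right₀ (by norm_num)
          rw [hℓ]; omega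
        · exact pow_le_pow_left₀ (by positivity) hl2 _
        · positivity
        · positivity
      have h7 : E₁ ≤ k * (2 ^ (ℓ + (k + 1) * (2 * m + 1) + 2) * (1 / 2) ^ (r + 1)) := by
        rw [hE₁]
        apply mul_le_mul_of_nonneg_left _ (by positivity)
        apply mul_le_mul_of_nonneg_right _ (by positivity)
        apply pow_le_pow_right₀ (by norm_num)
        rw [hℓ]; omega
      have h8 := hsw.trans h6
      have h8' : ∑ ρ : Idx Unit cs → St c, wt (G := Idx Unit cs) t t ξ smin s ρ *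
          (if bad ρ then (1 : ℝ) else 0) ≤
          2 ^ (ℓ + (k + 1) * (2 * m + 1) + 2) * (1 / 2) ^ (r + 1) := by
        refine le_trans (le_of_eq (Finset.sum_congr rfl fun ρ _ => ?_)) h8
        exact congrArg (fun q => wt (G := Idx Unit cs) t t ξ smin s ρ * q)
          (if_congr Iff.rfl rfl rfl)
      push_cast
      have h9 : ((k : ℝ) + 1) * (2 ^ (ℓ + (k + 1) * (2 * m + 1) + 2) * (1 / 2) ^ (r + 1)) =
        k * (2 ^ (ℓ + (k + 1) * (2 * m + 1) + 2) * (1 / 2) ^ (r + 1)) +
          2 ^ (ℓ + (k + 1) * (2 * m + 1) + 2) * (1 / 2) ^ (r + 1) := by ring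
      rw [h9]
      have hEE : E = (r : ℝ) * (Fintype.card X : ℝ) * (256 * t) := by
        rw [hE]
        push_cast
        ring
      linarith

/-- the sizes of the levels -/
theorem mass_sizes {n : ℕ} (hn : 5 ≤ n) : ∀ (k : ℕ) (law : Option Bool → ℝ), Inv n law →
    ∃ as : List ℕ, as.length = k + 1 ∧ (∀ a ∈ as, a ≤ 64 * n) ∧
      1 / 2 ≤ Ex law (fun s : Idx Unit (pw as) → Option Bool =>
        Av (1 / 2 ^ (4 * n)) (1 / 2 ^ (2 * n)) (8 * n * 2 ^ (4 * n)) true (pw as) s
          (fun _ => 1)) := by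
  classical
  have h2n : (1 : ℝ) / 2 ^ (2 * n) ≤ 1 / 32 := by
    apply one_div_le_one_div_of_le (by norm_num)
    calc (32 : ℝ) = 2 ^ 5 := by norm_num
      _ ≤ 2 ^ (2 * n) := pow_le_pow_right₀ (by norm_num) (by omega)
  intro k
  induction k with
  | zero =>
    intro law hinv
    obtain ⟨a, ha, h1, h2⟩ := exists_pow hn (B := 1 / 2) hinv.lo hinv.hi le_rfl (by
      have : (5 : ℝ) ≤ n := by exact_mod_cast hn
      linarith)
    refine ⟨[a], rfl, by simpa using ha, ?_⟩
    have hT : (64 : ℕ) ≤ 2 ^ (4 * n) := by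
      calc 64 = 2 ^ 6 := by norm_num
        _ ≤ 2 ^ (4 * n) := Nat.pow_le_pow_right (by norm_num) (by omega)
    have h16 : 16 ∣ 2 ^ (4 * n) := by
      have : (16 : ℕ) = 2 ^ 4 := by norm_num
      rw [this]
      exact pow_dvd_pow 2 (by omega)
    have hc : (((2 ^ (4 * n) : ℕ)) : ℝ) = 2 ^ (4 * n) := by push_cast; rfl
    have hc2 : (((2 ^ a : ℕ)) : ℝ) = 2 ^ a := by push_cast; rfl
    have hgp := good_prob (c := 2 ^ a) (D := 0) (T := 2 ^ (4 * n)) (ξ := 1 / 2 ^ (2 * n)) hT h16
      (by omega) (by positivity) h2n (law := law) hinv.nonneg hinv.sum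
      (by rw [hc]; exact hinv.rare)
      (by rw [hc, hc2]; exact h1) (by rw [hc, hc2]; linarith)
    rw [hc] at hgp
    have h3 := fg_block (X := Unit) (c := 2 ^ a) law
      (fun σ => if Good (1 / 2 ^ (4 * n)) (1 / 256) 0 σ then (1 : ℝ) else 0)
    rw [Fintype.card_unit, pow_one] at h3
    rw [← h3] at hgp
    refine le_trans hgp (le_of_eq ?_)
    unfold Ex
    refine sum_congr rfl fun (s : Unit × Fin (2 ^ a) → Option Bool) _ => ?_
    have e1 : (∏ j : Unit, if Good (1 / 2 ^ (4 * n)) (1 / 256) 0 (fun i => s (j, i)) then (1 : ℝ)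
        else 0) = Fn (1 / 2 ^ (4 * n)) true (c := 2 ^ a) s (fun _ => 1) := by
      unfold Fn
      rw [Fintype.prod_unique]
      simp only [if_true]
    exact congrArg (fun q => (∏ i, law (s i)) * q) e1
  | succ k ih =>
    intro law hinv
    have hn5 : (5 : ℝ) ≤ n := by exact_mod_cast hn
    obtain ⟨a, ha, h1, h2⟩ := exists_pow hn (B := 16 * n) hinv.lo hinv.hi (by linarith) le_rfl
    have hc2 : (((2 ^ a : ℕ)) : ℝ) = 2 ^ a := by push_cast; rfl
    have hinv' := inv_step (c := 2 ^ a) hn hinv (by rw [hc2]; exact h1)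
      (by rw [hc2]; linarith)
    obtain ⟨as, hlen, has, hX⟩ := ih _ hinv'
    refine ⟨a :: as, by simp [hlen], ?_, ?_⟩
    · intro a' ha'
      rcases List.mem_cons.1 ha' with rfl | h
      · exact ha
      · exact has a' h
    · refine le_trans hX (le_of_eq ?_)
      have hne : pw as ≠ [] := by
        intro h
        have : (pw as).length = 0 := by rw [h]; rfl
        rw [pw, List.length_map] at this
        omega
      rw [← law_stage (G := Idx Unit (pw as)) (c := 2 ^ a) (smin := 8 * n * 2 ^ (4 * n))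
        (t := 1 / 2 ^ (4 * n)) (t' := 1 / 2 ^ (4 * n)) (ξ := 1 / 2 ^ (2 * n)) law]
      unfold Ex
      refine Finset.sum_congr rfl fun s _ => ?_
      show _ = _ * Av _ _ _ true (2 ^ a :: pw as) s (fun _ => 1)
      rw [Av_two _ _ _ _ _ _ hne]
      rfl

end Pool.Agent.H9x.SP
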