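import Pool.Agent.H9x.SP.One

/-!
# The stages of the construction
-/

set_option autoImplicit false

namespace Pool.Agent.H9x.SP

open Finset H568R2 Pool.Agent.H676 Pool.Agent.H620R2.Gauge Pool.Agent.NPC Pool.Agent.H591R3.PHG
  Pool.Agent.H622R2 Pool.Agent.H622R2.Exp

open Pool.Agent.H9x.RT (UU mem_UU card_lev lev)
open Pool.Agent.H9x.RU (fo Rt rt_iff LQ sizes SZ lf)

/-- the sum of all distances -/
theorem sum_lev_le {S : ℕ → Polynomial ℕ} (hS : ∀ e n, n + e + 1 ≤ (S e).eval n) (n T : ℕ) {L : ℝ}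
    (hL : 0 ≤ L) : ∑ c ∈ UU S n T, 107 * L / 8 ^ (lev S c) ≤ (T + 1) * (214 * L / 2 ^ n) := by
  classical
  have hmap : ∀ c ∈ UU S n T, lev S c ∈ range (T + 1) := fun c hc => by
    rw [mem_range]
    have := ((mem_UU hS).1 hc).2
    omega
  rw [← sum_fiberwise_of_maps_to hmap]
  have hterm : ∀ s ∈ range (T + 1), ∑ c ∈ (UU S n T).filter (fun c => lev S c = s),
      107 * L / 8 ^ (lev S c) ≤ 214 * L / 2 ^ n := by
    intro s _
    by_cases hsn : s < n
    · have : (UU S n T).filter (fun c => lev S c = s) = ∅ := by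
        rw [filter_eq_empty_iff]
        intro c hc hcs
        have := ((mem_UU hS).1 hc).1
        omega
      rw [this, sum_empty]
      positivity
    · have h1 : ∑ c ∈ (UU S n T).filter (fun c => lev S c = s), 107 * L / 8 ^ (lev S c) ≤
          ∑ c ∈ (UU S n T).filter (fun c => lev S c = s), 107 * L / 8 ^ s := by
        refine sum_le_sum fun c hc => ?_
        rw [(mem_filter.1 hc).2]
      refine h1.trans ?_
      rw [sum_const, nsmul_eq_mul]
      have h2 : ((((UU S n T).filter fun c => lev S c = s).card : ℕ) : ℝ) ≤ 2 ^ (2 * s + 1) := by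
        exact_mod_cast card_lev hS n T s
      have h3 : (0 : ℝ) ≤ 107 * L / 8 ^ s := by positivity
      refine (mul_le_mul_of_nonneg_right h2 h3).trans ?_
      have h4 : (2 : ℝ) ^ (2 * s + 1) * (107 * L / 8 ^ s) = 214 * L / 2 ^ s := by
        have h5 : (8 : ℝ) ^ s = 2 ^ (2 * s) * 2 ^ s := by
          rw [← pow_add, show 2 * s + s = 3 * s by ring, pow_mul]
          norm_num
        have h6 : (0 : ℝ) < 2 ^ (2 * s) := by positivity
        have h7 : (0 : ℝ) < 2 ^ s := by positivity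
        rw [h5, pow_succ]
        field_simp
        ring
      rw [h4]
      have h5 : (2 : ℝ) ^ n ≤ 2 ^ s := pow_le_pow_right₀ (by norm_num) (not_lt.1 hsn)
      exact div_le_div_of_nonneg_left (by positivity) (by positivity) h5
  refine (sum_le_sum hterm).trans ?_
  rw [sum_const, card_range, nsmul_eq_mul]
  push_cast
  exact le_rfl

variable {Y : Sys}

/-- the blocks fool `k` quantifiers -/
def OkF (Y : Sys) (Bk : Y.K → Blk) (k : ℕ) : Prop :=
  ∀ n u T Λ : ℕ, 5 ≤ n → 8 * u ≤ n → Λ ≤ T → 17 * T + 84 + k ≤ 2 ^ (2 * u) →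
    ∃ C : List Y.K, C.Nodup ∧ (∀ c, c ∈ C ↔ n ≤ Y.lev c ∧ Y.lev c ≤ T) ∧
      C.Pairwise (fun a b => Y.lev a ≤ Y.lev b) ∧
      ∃ δ : Y.K → ℝ, (∀ c ∈ C, 0 ≤ δ c) ∧ (∀ c ∈ C, Fools (Bk c) k u (2 ^ (u + 11)) Λ (δ c)) ∧
        (C.map δ).sum ≤ (T + 1) * (214 * (LQ u k : ℝ) / 2 ^ n)

/-- the data of one level -/
abbrev Lv (Y : Sys) : Type := (Y.K → Bool → List Bool → Bool) × (List Bool → Bool)

/-- the data given by the levels -/
def dat (Y : Sys) (κ : ℕ → Lv Y) : Dt Y.K :=
  ⟨fun c => (κ (Y.lev c)).1 c, fun u => (κ u.length).2 u⟩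

/-- the data of one level are good -/
def GLv (Bk : Y.K → Blk) (s : ℕ) (v : Lv Y) : Prop :=
  ∀ c, Y.lev c = s → ∀ t, (Bk c).good t (v.1 c t)

theorem good_dat {Bk : Y.K → Blk} {κ : ℕ → Lv Y} (h : ∀ s, GLv Bk s (κ s)) :
    Good Bk (dat Y κ).bl :=
  fun c => h (Y.lev c) c rfl

/-- the machine is wrong with all the small paddings -/
def Req (cc : Alg → ℕ → ℕ) (A : Oracle) (r : Alg × ℕ × ℕ) : Prop :=
  ∃ m₀ : ℕ, r.2.2 ≤ m₀ ∧ ∀ P ≤ 2 ^ (m₀ / cc r.1 r.2.1), ∃ x : List Bool, x.length = m₀ ∧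
    ¬ (x ∈ lang r.2.1 (fo A) ↔ Quant P (fun y => (r.1.out A y).getD []) r.2.1 true
      (pairBits (List.replicate P true) x))

/-- **One stage.** -/
theorem stage (Bk : Y.K → Blk) (cc : Alg → ℕ → ℕ) (hcc : ∀ (M : Alg) (k N₀ : ℕ),
    ∃ (n u T Pm Λ m₀ : ℕ) (as : List ℕ), N₀ ≤ n ∧ 5 ≤ n ∧ 8 * u ≤ n ∧ SZ n u k as ∧
      (∀ j : Fin (2 ^ (u + 11)), (enc as (8 * n) (bitsOf (u + 11) j)).length = m₀) ∧ n ≤ m₀ ∧
      (k + 1) * (2 * Pm + 1) + m₀ ≤ Λ ∧
      (∀ y : List Bool, y.length ≤ Λ → M.p.eval y.length ≤ T) ∧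
      (∀ (A : Oracle) (y : List Bool), y.length ≤ Λ → M.out (CC.cut T A) y = M.out A y) ∧
      Λ ≤ T ∧ 17 * T + 84 + k ≤ 2 ^ (2 * u) ∧
      ((Pm : ℝ) + 1) * (k * (2 ^ (Λ + 2) * (1 / 2) ^ (2 ^ (2 * u) + 1)) +
        3 * (1 / 2) ^ (2 ^ u)) + ((Pm : ℝ) + 1) * ((T + 1) * (214 * (LQ u k : ℝ) / 2 ^ n)) < 1 ∧
      2 ^ (m₀ / cc M k) ≤ Pm) (r : Alg × ℕ × ℕ) (hok : OkF Y Bk r.2.1) (N₀ : ℕ) (κ : ℕ → Lv Y)
    (hκ : ∀ s, GLv Bk s (κ s)) :
    ∃ (κ' : ℕ → Lv Y) (N' : ℕ), (∀ s, GLv Bk s (κ' s)) ∧ (∀ s < N₀, κ' s = κ s) ∧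
      ∀ κ'' : ℕ → Lv Y, (∀ s, GLv Bk s (κ'' s)) → (∀ s < N', κ'' s = κ' s) →
        Req cc (orc Y (dat Y κ'')) r := by
  obtain ⟨M, k, i⟩ := r
  obtain ⟨n, u, T, Pm, Λ, m₀, as, h1, h2, h3, hsz, hm, hnm, hΛ, hp, hcut, hΛT, h17, hnum, hPm⟩ :=
    hcc M k (N₀ + i)
  obtain ⟨C, hCn, hCm, hCp, δ, hδ, hfool, hsum⟩ := hok n u T Λ h2 h3 hΛT h17
  obtain ⟨D', hD', hb, hf, hne⟩ := one_step Bk (Pm := Pm) M h2 h3 hsz hm hnm hΛ
    (fun y hy => (hp y hy).trans (by omega)) hcut C hCn hCm hCp δ hδ hfool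
    (lt_of_le_of_lt (by
      have h4 : (0 : ℝ) ≤ (Pm : ℝ) + 1 := by positivity
      have := mul_le_mul_of_nonneg_left hsum h4
      linarith) hnum) (dat Y κ) (good_dat hκ)
  set κ' : ℕ → Lv Y := fun s => if s < N₀ then κ s else (D'.bl, D'.fr) with hκ'
  have hdat : dat Y κ' = D' := by
    have e1 : (dat Y κ').bl = D'.bl := by
      funext c
      show (κ' (Y.lev c)).1 c = _
      rw [hκ']
      simp only
      split_ifs with hlt
      · rw [hb c (by omega)]
        rfl
      · rfl
    have e2 : (dat Y κ').fr = D'.fr := by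
      funext v
      show (κ' v.length).2 v = _
      rw [hκ']
      simp only
      split_ifs with hlt
      · rw [hf v (by omega)]
        rfl
      · rfl
    cases D'
    simp only at e1 e2
    rw [← e1, ← e2]
  refine ⟨κ', T + m₀ + as.sum + 8 * n + 2, fun s => ?_,
    fun s hs => by rw [hκ']; exact if_pos hs, fun κ'' _ hag => ⟨m₀, by show i ≤ m₀; omega,
      fun P hP => ?_⟩⟩
  · rw [hκ']
    simp only
    split_ifs with hlt
    · exact hκ s
    · intro c hcs
      exact hD' c
  · have hloc : ∀ q : List Bool, q.length ≤ T + m₀ + as.sum + 8 * n + 1 →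
        orc Y (dat Y κ'') q = orc Y D' q := by
      intro q hq
      refine orc_loc (n := T + m₀ + as.sum + 8 * n + 2) (fun c hc' => ?_) (fun v hv => ?_) _ q rfl
        (by omega)
      · show (κ'' (Y.lev c)).1 c = _
        rw [hag _ hc', ← hdat]
        rfl
      · show (κ'' v.length).2 v = _
        rw [hag _ hv, ← hdat]
        rfl
    have hP2 : P ≤ Pm := le_trans hP hPm
    have hΛP : ∀ j : Fin (2 ^ (u + 11)), (pairBits (List.replicate P true) (enc as (8 * n)
        (bitsOf (u + 11) j))).length + k * (2 * P + 1) ≤ Λ := by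
      intro j
      rw [length_pairBits, List.length_replicate, hm j]
      have h1 : (k + 1) * (2 * P + 1) ≤ (k + 1) * (2 * Pm + 1) :=
        Nat.mul_le_mul_left _ (by omega)
      have h2 : (k + 1) * (2 * P + 1) = k * (2 * P + 1) + (2 * P + 1) := by ring
      omega
    have h4 := RU.rt_congr (T := T) (Λ := Λ) (M := M) (w := 8 * n) hsz.1
      (fun j : Fin (2 ^ (u + 11)) => bitsOf (u + 11) j) hΛP hcut hm hloc
    have h5 := hne P hP2
    rw [← h4] at h5
    unfold Rt at h5
    rw [not_forall] at h5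
    obtain ⟨j, hj⟩ := h5
    exact ⟨_, hm j, hj⟩

/-- good data exist -/
theorem exists_good (Bk : Y.K → Blk) : ∃ κ : ℕ → Lv Y, ∀ s, GLv Bk s (κ s) := by
  have h1 : ∀ (c : Y.K) (t : Bool), ∃ V, (Bk c).good t V := by
    intro c t
    by_contra hcon
    push Not at hcon
    have h2 : ∀ z, (Bk c).P t z = 0 := fun z => by
      by_contra h3
      exact hcon _ ((Bk c).sup t z h3)
    have := (Bk c).s1 t
    simp [h2] at this
  choose V hV using h1
  exact ⟨fun s => (V, fun _ => false), fun s c _ t => hV c t⟩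

/-- **The levels of the free strings.** -/
theorem free_levels (V : List Bool → List Bool) (h : ℕ → ℕ) {A : Oracle} (hV : IsFP A V)
    (hh : ∀ c : ℕ, ∀ᶠ n : ℕ in Filter.atTop, c * h n ≤ n) (cc : Alg → ℕ → ℕ) (k : ℕ)
    (hcc1 : ∀ M, 1 ≤ cc M k)
    (hR : ∀ (M : Alg) (i : ℕ), Req cc A (M, k, i)) :
    ∃ x, ¬ (x ∈ lang k (fo A) ↔
      Quant (2 ^ h x.length) V k true (pairBits (List.replicate (2 ^ h x.length) true) x)) := by
  obtain ⟨M, hM⟩ := hV
  have h1 := hh (cc M k)
  rw [Filter.eventually_atTop] at h1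
  obtain ⟨i, hi⟩ := h1
  obtain ⟨m₀, h2, h3⟩ := hR M i
  have h4 : h m₀ ≤ m₀ / cc M k := by
    rw [Nat.le_div_iff_mul_le (hcc1 M), mul_comm]
    exact hi m₀ h2
  obtain ⟨x, hx, hx2⟩ := h3 (2 ^ h m₀) (Nat.pow_le_pow_right (by norm_num) h4)
  refine ⟨x, ?_⟩
  rw [hx]
  have h5 : (fun y => ((M.out A) y).getD []) = V := by
    funext y
    rw [hM y]
    rfl
  rw [← h5]
  exact hx2

/-! ### Reductions -/

/-- the innermost string of a nested string is replaced -/
def rep : ℕ → (List Bool → List Bool) → List Bool → List Bool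
  | 0, f, x => f x
  | j + 1, f, u => pairBits (unpair u).1 (rep j f (unpair u).2)

theorem quant_rep (V : List Bool → List Bool) (f : List Bool → List Bool) (m K : ℕ) :
    ∀ (j i : ℕ) (b : Bool) (u : List Bool), i + j = K →
      (Quant m (fun y => V (rep K f y)) j b u ↔ Quant m V j b (rep i f u)) := by
  intro j
  induction j with
  | zero =>
    intro i b u hi
    have : i = K := by omega
    subst this
    rfl
  | succ j ih =>
    intro i b u hi
    have key : ∀ (b' : Bool) (w : List Bool), (Quant m (fun y => V (rep K f y)) j b' (pairBits w u) ↔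
        Quant m V j b' (pairBits w (rep i f u))) := by
      intro b' w
      rw [ih (i + 1) b' (pairBits w u) (by omega)]
      simp only [rep, unpair_pairBits]
    cases b with
    | true =>
      simp only [Quant]
      exact exists_congr fun w => and_congr_right fun _ => key _ w
    | false =>
      simp only [Quant]
      exact forall_congr' fun w => forall_congr' fun _ => key _ w

theorem poly_repl {f : List Bool → List Bool} (hf : Poly f) : ∀ j : ℕ, Poly (rep j f)
  | 0 => hf
  | j + 1 => by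
    have h1 : Poly (fun z : List Bool => (unpair z).1) := Poly.fst poly_unpair
    have h2 : Poly (fun z : List Bool => (unpair z).2) := Poly.snd poly_unpair
    exact poly_pairBits h1 ((poly_repl hf j).comp h2)

/-- **Reductions to the language of trees.** -/
theorem isSig_of_lang {A : Oracle} {k : ℕ} {L : Set (List Bool)} (pre : List Bool)
    (r : List Bool → List Bool) (hr : Poly r) (p : Polynomial ℕ)
    (hp : ∀ x, (r x).length ≤ p.eval x.length)
    (hL : ∀ x, x ∈ L ↔ r x ∈ lang k (fun q => A (pre ++ q))) : IsSig A (k + 1) L := by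
  set B : Oracle := fun q => A (pre ++ q) with hB
  set e : Bool := !(bot true (k + 1)) with he
  refine ⟨fun y => LangSig.Ver (k + 1) e B (rep (k + 1) r y), p, ?_, fun x => ?_⟩
  · have h1 : Poly (fun q : List Bool × List Bool => q.2.all (fun b => !b)) :=
      Poly.all (p := fun _ b => !b) (Poly.snd Poly.id) (Poly.not (Poly.snd Poly.id))
    have h2 : Poly (fun q : List Bool × List Bool => [decide (q.2.all (fun b => !b) = e)]) :=
      Poly.cons (Poly.decide_eq h1 (NPC.Poly.const e)) (NPC.Poly.const [])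
    have h3 : Poly (fun y : List Bool => (LangSig.Qs (k + 1) (rep (k + 1) r y)).map
        (fun q => pre ++ q)) :=
      NPC.Poly.map (F := fun _ q => pre ++ q) ((LangSig.poly_Qs (k + 1)).comp
        (poly_repl hr (k + 1))) (Poly.append (NPC.Poly.const pre) (Poly.snd Poly.id))
    have h4 := IsFP.tt (A := A) (H := fun q => [decide (q.2.all (fun b => !b) = e)]) h3 h2
    have h5 : (fun x => (fun q : List Bool × List Bool => [decide (q.2.all (fun b => !b) = e)])
        (x, ((LangSig.Qs (k + 1) (rep (k + 1) r x)).map (fun q => pre ++ q)).map A)) =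
        fun y => LangSig.Ver (k + 1) e B (rep (k + 1) r y) := by
      funext y
      show [decide (_ = e)] = [decide (_ = e)]
      rw [List.map_map]
      rfl
    rw [h5] at h4
    exact h4
  · rw [hL, quant_rep (LangSig.Ver (k + 1) e B) r _ (k + 1) (k + 1) 0 true x (by omega)]
    show _ ↔ Quant _ _ _ _ (r x)
    rw [LangSig.quant_iff B (k + 1) _ e (k + 1) 0 true (r x) (r x) (r x) (by omega) rfl (hp x)
      (by rw [he, Bool.not_not])]
    rfl

theorem mem_lang_fold (A : Oracle) (k : ℕ) (as : List ℕ) (hk : as.length = k + 1) (w : ℕ)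
    (z : List Bool) : enc as w z ∈ lang k A ↔
      (as.foldl (fun v a => up a v) (bitv A w)) (enc as w z) = false := by
  have h2 : parse (k + 1) (enc as w z) = (as.reverse, pairBits (List.replicate w true) z) := by
    rw [← hk]
    exact LangTrAux.parse_enc as w z
  unfold Pool.Agent.H591R3.PHG.lang
  rw [Set.mem_ofPred_eq, h2]
  dsimp only
  rw [unpair_pairBits]
  dsimp only
  rw [List.length_replicate, List.foldr_reverse]

theorem fold_shift (r : List Bool) : ∀ (as : List ℕ) (V V' : List Bool → Bool),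
    (∀ q, V (r ++ q) = V' q) → ∀ q, (as.foldl (fun v a => up a v) V) (r ++ q) =
      (as.foldl (fun v a => up a v) V') q
  | [], V, V', h, q => h q
  | a :: as, V, V', h, q => by
    refine fold_shift r as (up a V) (up a V') (fun q => ?_) q
    unfold up
    rw [decide_eq_decide]
    refine forall_congr' fun i => forall_congr' fun _ => ?_
    rw [List.append_assoc, h]

/-- the value of the tree below a string -/
theorem fold_sval (A : Oracle) (s k : ℕ) (r : List Bool) :
    ((List.replicate (k + 1) (64 * s)).foldl (fun v a => up a v) (bitv A (8 * s))) r =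
      sval s k (fun v => A (r ++ v)) := by
  have h1 := fold_shift r (List.replicate (k + 1) (64 * s)) (bitv A (8 * s))
    (bitv (fun v => A (r ++ v)) (8 * s)) (fun q => by
      unfold bitv
      rw [decide_eq_decide]
      refine forall_congr' fun i => forall_congr' fun _ => ?_
      rw [List.append_assoc]) []
  rw [List.append_nil] at h1
  exact h1

theorem enc_app (as : List ℕ) (w : ℕ) (z v : List Bool) :
    enc as w z ++ v = enc as w (z ++ v) := by
  induction as using List.reverseRecOn with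
  | nil =>
    rw [LangTrAux.enc_nil, LangTrAux.enc_nil]
    simp [pairBits]
  | append_singleton as a ih =>
    rw [LangTrAux.enc_append, LangTrAux.enc_append, ← ih]
    simp [pairBits]

end Pool.Agent.H9x.SP
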