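import Pool.Agent.H9x.SP.Diff

/-!
# The pair of distributions on trees of a fixed shape
-/

set_option autoImplicit false
set_option linter.unusedSectionVars false

namespace Pool.Agent.H9x.SP

open Finset H568R2 Pool.Agent.H676 Pool.Agent.H620R2.Gauge Pool.Agent.NPC Pool.Agent.H591R3.PHG

/-! ### The leaves -/

/-- the functional of the leaves -/
noncomputable def Lf (n : ℕ) (as : List ℕ) (b : Bool)
    (Φ : (Idx Unit (8 * n :: pw as) → Bool) → ℝ) : ℝ :=
  ∑ ρ : Idx Unit (pw as) → St (8 * n),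
    wt (G := Idx Unit (pw as)) (1 / 2) (1 / 2 ^ (4 * n)) 0 (8 * n) (fun _ => none) ρ *
      Av (1 / 2 ^ (4 * n)) (1 / 2 ^ (2 * n)) (8 * n * 2 ^ (4 * n)) b (pw as) (fun h => (ρ h).1)
        (fun z => Φ (XX (G := Idx Unit (pw as)) (fun _ => none) ρ z))

/-- **The pair of distributions.** -/
theorem exists_pair {n : ℕ} (hn : 5 ≤ n) (k : ℕ) :
    ∃ as : List ℕ, as.length = k + 1 ∧ (∀ a ∈ as, a ≤ 64 * n) ∧
      ∃ P : Bool → (Idx Unit (8 * n :: pw as) → Bool) → ℝ, (∀ t z, 0 ≤ P t z) ∧
        (∀ t, ∑ z, P t z = 1) ∧ (∀ t z, P t z ≠ 0 → Tr (8 * n :: pw as) z () = t) ∧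
        ∀ (X : Type) [Fintype X] [DecidableEq X] (u : ℕ), 8 * u ≤ n → ∀ (m ℓ : ℕ)
          (F : List Bool → (Idx Unit (8 * n :: pw as) → Bool) → Bool),
          (∀ y : List Bool, y.length ≤ ℓ + k * (2 * m + 1) → DTr (2 ^ (2 * u)) (F y)) →
          ∀ (y : X → List Bool), (∀ j, (y j).length ≤ ℓ) → ∀ (b : Bool) (Ψ : (X → Bool) → Bool),
          |∑ z, P true z * br (fun z => Ψ (fun j => QF m F k b (y j) z)) z -
            ∑ z, P false z * br (fun z => Ψ (fun j => QF m F k b (y j) z)) z| ≤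
            2 * (k * (2 ^ (ℓ + k * (2 * m + 1) + 2) * (1 / 2) ^ (2 ^ (2 * u) + 1)) +
              ((2 ^ (2 * u) * Fintype.card X : ℕ) : ℝ) * (256 * (1 / 2 ^ (4 * n)))) := by
  classical
  obtain ⟨as, hlen, has, hM⟩ := mass_sizes hn k _ (inv_start hn)
  have hlp : (pw as).length = k + 1 := by rw [pw, List.length_map]; exact hlen
  have hA := adm hn
  set t : ℝ := 1 / 2 ^ (4 * n) with ht
  set ξ : ℝ := 1 / 2 ^ (2 * n) with hξ
  set smin : ℕ := 8 * n * 2 ^ (4 * n) with hsmin
  have ht0 : 0 < t := hA.t0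
  have hpow : (1 - 1 / 2 : ℝ) ^ (8 * n) / t ≤ 1 := by
    rw [ht, div_le_one (by positivity)]
    rw [show (1 - 1 / 2 : ℝ) = 1 / 2 by norm_num, one_div_pow]
    apply one_div_le_one_div_of_le (by positivity)
    exact pow_le_pow_right₀ (by norm_num) (by omega)
  have hs1 : 1 ≤ 8 * n := by omega
  have hcond : (1 - 0) * (1 - 1 / 2 : ℝ) ^ (8 * n) / t + 0 * (1 - 1 / 2 : ℝ) ^ (8 * n) ≤ 1 := by
    rw [zero_mul, add_zero, sub_zero, one_mul]
    exact hpow
  set s0 : Idx Unit (pw as) × Fin (8 * n) → Option Bool := fun _ => none with hs0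
  have hw : ∀ ρ : Idx Unit (pw as) → St (8 * n),
      0 ≤ wt (G := Idx Unit (pw as)) (1 / 2) t 0 (8 * n) s0 ρ := fun ρ =>
    wt_nonneg (by norm_num) (by norm_num) ht0 le_rfl zero_le_one hs1 hcond s0 ρ
  have hlin : ∀ b, ∃ P : (Idx Unit (8 * n :: pw as) → Bool) → ℝ, ∀ Φ, Lf n as b Φ = ∑ z, P z * Φ z := by
    intro b
    choose P hP using fun ρ : Idx Unit (pw as) → St (8 * n) =>
      Av_lin (t := t) (ξ := ξ) (smin := smin) b (pw as) (fun h => (ρ h).1)
    have key : ∀ Φ : (Idx Unit (8 * n :: pw as) → Bool) → ℝ, Lf n as b Φ = _ := fun Φ =>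
      (sum_congr rfl fun ρ _ => by rw [hP]).trans
        (sum_chg (fun ρ => wt (G := Idx Unit (pw as)) (1 / 2) t 0 (8 * n) s0 ρ) P
          (fun ρ z => XX (G := Idx Unit (pw as)) s0 ρ z) Φ)
    exact ⟨_, key⟩
  choose P hP using hlin
  have hmono : ∀ b {Φ Ψ : (Idx Unit (8 * n :: pw as) → Bool) → ℝ}, (∀ z, Φ z ≤ Ψ z) →
      Lf n as b Φ ≤ Lf n as b Ψ := fun b Φ Ψ h => sum_le_sum fun ρ _ =>
    mul_le_mul_of_nonneg_left (Av_mono hA b _ _ fun z => h _) (hw ρ)
  have hzero : ∀ b, Lf n as b (fun _ => 0) = 0 := fun b =>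
    sum_eq_zero fun ρ _ => by rw [Av_zero, mul_zero]
  have hP0 : ∀ b z, 0 ≤ P b z := by
    intro b z
    have h1 := hmono b (Φ := fun _ => 0) (Ψ := fun z' => if z' = z then 1 else 0)
      (fun z' => by split_ifs <;> norm_num)
    rw [hzero, hP] at h1
    simpa using h1
  have hsupp : ∀ b z, P b z ≠ 0 → Tr (8 * n :: pw as) z () = b := by
    intro b z hz
    by_contra hcon
    apply hz
    have h1 : Lf n as b (fun z' => if z' = z then 1 else 0) = 0 := by
      refine sum_eq_zero fun ρ _ => ?_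
      by_cases hρ : wt (G := Idx Unit (pw as)) (1 / 2) t 0 (8 * n) s0 ρ = 0
      · rw [hρ, zero_mul]
      · refine mul_eq_zero_of_right _ (Av_supp b (pw as) _ fun z' hz' => ?_)
        refine if_neg ?_
        rintro rfl
        apply hcon
        rw [← hz']
        show Tr (pw as) (fun g => decide (∀ i : Fin (8 * n),
          XX (G := Idx Unit (pw as)) s0 ρ z' (g, i) = false)) () = _
        congr 1
        funext g'
        exact val_stage (G := Idx Unit (pw as)) s0 ρ hρ z' g'
    rw [hP] at h1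
    simpa using h1
  -- the mass
  set Ma : ℝ := Lf n as true (fun _ => 1) with hMa
  have hMb : ∀ b, Lf n as b (fun _ => 1) = Ma := fun b =>
    sum_congr rfl fun ρ _ => by rw [Av_mass]
  have hM1 : 1 / 2 ≤ Ma := by
    refine le_trans hM (le_of_eq ?_)
    have h8 := law_stage (G := Idx Unit (pw as)) (c := 8 * n) (smin := 8 * n) (t := 1 / 2)
      (t' := t) (ξ := 0) law0 (fun s => Av t ξ smin true (pw as) s (fun _ => 1))
    rw [Ex_law0] at h8
    exact h8.symm
  have hMp : 0 < Ma := by linarith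
  refine ⟨as, hlen, has, fun b z => P b z / Ma, fun b z => div_nonneg (hP0 b z) hMp.le,
    fun b => ?_, fun b z hz => hsupp b z fun h => hz (by simp only [h, zero_div]), ?_⟩
  · rw [← sum_div]
    have h1 := hMb b
    rw [hP] at h1
    simp only [mul_one] at h1
    rw [h1, div_self hMp.ne']
  intro X _ _ u hu m ℓ F hF y hy b Ψ
  set f : (Idx Unit (8 * n :: pw as) → Bool) → Bool := fun z => Ψ (fun j => QF m F k b (y j) z)
    with hf
  set E : ℝ := k * (2 ^ (ℓ + k * (2 * m + 1) + 2) * (1 / 2) ^ (2 ^ (2 * u) + 1)) +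
    ((2 ^ (2 * u) * Fintype.card X : ℕ) : ℝ) * (256 * t) with hE
  have h1 : ∀ b', ∑ z, P b' z / Ma * br f z = Lf n as b' (br f) / Ma := by
    intro b'
    rw [hP, sum_div]
    exact sum_congr rfl fun z _ => by ring
  rw [h1, h1, ← sub_div, abs_div, abs_of_pos hMp, div_le_iff₀ hMp]
  have h2 : |Lf n as true (br f) - Lf n as false (br f)| ≤ E := by
    unfold Lf
    rw [← sum_sub_distrib]
    refine (abs_sum_le_sum_abs _ _).trans ?_
    have hterm : ∀ ρ : Idx Unit (pw as) → St (8 * n),
        |wt (G := Idx Unit (pw as)) (1 / 2) t 0 (8 * n) s0 ρ *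
          Av t ξ smin true (pw as) (fun h => (ρ h).1)
            (fun z => br f (XX (G := Idx Unit (pw as)) s0 ρ z)) -
          wt (G := Idx Unit (pw as)) (1 / 2) t 0 (8 * n) s0 ρ *
          Av t ξ smin false (pw as) (fun h => (ρ h).1)
            (fun z => br f (XX (G := Idx Unit (pw as)) s0 ρ z))| ≤
        wt (G := Idx Unit (pw as)) (1 / 2) t 0 (8 * n) s0 ρ * E := by
      intro ρ
      rw [← mul_sub, abs_mul, abs_of_nonneg (hw ρ)]
      refine mul_le_mul_of_nonneg_left ?_ (hw ρ)
      have h5 := diff_ind hn hu k (pw as) hlp (fun h => (ρ h).1) m ℓ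
        (fun y' z => F y' (XX (G := Idx Unit (pw as)) s0 ρ z))
        (fun y' hy' => DTr_XX (G := Idx Unit (pw as)) s0 ρ (hF y' hy')) y hy b Ψ
      have hfun : (fun z => br f (XX (G := Idx Unit (pw as)) s0 ρ z)) =
          br (fun z => Ψ (fun j => QF m
            (fun y' z => F y' (XX (G := Idx Unit (pw as)) s0 ρ z)) k b (y j) z)) := by
        funext z
        have : (fun j => QF m F k b (y j) (XX (G := Idx Unit (pw as)) s0 ρ z)) = fun j =>
            QF m (fun y' z => F y' (XX (G := Idx Unit (pw as)) s0 ρ z)) k b (y j) z := by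
          funext j
          rw [QF_comp m F (XX (G := Idx Unit (pw as)) s0 ρ)]
        exact congrArg (fun v => if Ψ v = true then (1 : ℝ) else 0) this
      rw [hfun]
      exact h5
    refine (sum_le_sum fun ρ _ => hterm ρ).trans ?_
    rw [← sum_mul, wt_sum (by norm_num) (by norm_num) ht0 hs1 s0, one_mul]
  have hE0 : 0 ≤ E := by positivity
  refine h2.trans ?_
  nlinarith

/-! ### The fixed shape -/

/-- a node of the larger tree: a node of the smaller tree or a fixed value -/
def prj : (cs cs' : List ℕ) → Idx Unit cs' → Idx Unit cs ⊕ Bool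
  | [], [], g => Sum.inl g
  | c :: cs, _ :: cs', (h, i) => match prj cs cs' h with
    | Sum.inl h' => if hi : i.val < c then Sum.inl (h', ⟨i.val, hi⟩) else Sum.inr false
    | Sum.inr v => Sum.inr (!v)
  | _, _, _ => Sum.inr false

/-- the larger vector -/
def pad (cs cs' : List ℕ) (z : Idx Unit cs → Bool) : Idx Unit cs' → Bool := fun g =>
  match prj cs cs' g with
  | Sum.inl h => z h
  | Sum.inr v => v

theorem pad_co (cs cs' : List ℕ) : Proj.Co (pad cs cs') := by
  intro g
  unfold pad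
  cases prj cs cs' g with
  | inl h => exact Or.inr ⟨h, id, fun z => rfl⟩
  | inr v => exact Or.inl ⟨v, fun z => rfl⟩

theorem Tr_pad : ∀ (cs cs' : List ℕ), List.Forall₂ (fun c c' => c ≤ c' ∧ 1 ≤ c') cs cs' →
    ∀ z : Idx Unit cs → Bool, Tr cs' (pad cs cs' z) () = Tr cs z () := by
  intro cs cs' h
  induction h with
  | nil => intro z; rfl
  | @cons c c' cs cs' hc _ ih =>
    intro z
    rw [show Tr (c :: cs) z () = Tr cs (fun g => decide (∀ i : Fin c, z (g, i) = false)) ()
      from rfl, ← ih]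
    show Tr cs' (fun g => decide (∀ i : Fin c', pad (c :: cs) (c' :: cs') z (g, i) = false)) () = _
    congr 1
    funext g
    unfold pad
    cases hg : prj cs cs' g with
    | inl h' =>
      simp only
      rw [decide_eq_decide]
      constructor
      · intro h1 i
        have h2 := h1 ⟨i.val, lt_of_lt_of_le i.isLt hc.1⟩
        simp only [prj, hg, i.isLt, dif_pos] at h2
        exact h2
      · intro h1 i
        simp only [prj, hg]
        by_cases hi : i.val < c
        · simp only [hi, dif_pos]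
          exact h1 _
        · simp only [hi, dif_neg, not_false_iff]
    | inr v =>
      simp only
      cases v with
      | true =>
        rw [decide_eq_true_iff]
        intro i
        simp only [prj, hg]
        rfl
      | false =>
        rw [decide_eq_false_iff_not]
        intro h1
        have h2 := h1 ⟨0, hc.2⟩
        simp only [prj, hg] at h2
        exact absurd h2 (by decide)

/-- the shape -/
def shp (n k : ℕ) : List ℕ := 8 * n :: pw (List.replicate (k + 1) (64 * n))

theorem fa_shp {n : ℕ} : ∀ (k : ℕ) (as : List ℕ), as.length = k + 1 → (∀ a ∈ as, a ≤ 64 * n) →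
    List.Forall₂ (fun c c' => c ≤ c' ∧ 1 ≤ c') (pw as) (pw (List.replicate (k + 1) (64 * n)))
  | 0, [a], _, has => List.Forall₂.cons ⟨Nat.pow_le_pow_right (by norm_num) (has a (by simp)),
      Nat.one_le_two_pow⟩ List.Forall₂.nil
  | k + 1, a :: as, hlen, has => by
      rw [List.replicate_succ]
      exact List.Forall₂.cons ⟨Nat.pow_le_pow_right (by norm_num) (has a (by simp)),
        Nat.one_le_two_pow⟩ (fa_shp k as (by simpa using hlen)
          (fun a' ha' => has a' (by simp [ha'])))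

/-- **The pair of distributions on the trees of the fixed shape.** -/
theorem exists_sip {n : ℕ} (hn : 5 ≤ n) (k : ℕ) :
    ∃ P : Bool → (Idx Unit (shp n k) → Bool) → ℝ, (∀ t z, 0 ≤ P t z) ∧
      (∀ t, ∑ z, P t z = 1) ∧ (∀ t z, P t z ≠ 0 → Tr (shp n k) z () = t) ∧
      ∀ (X : Type) [Fintype X] [DecidableEq X] (u : ℕ), 8 * u ≤ n → ∀ (m ℓ : ℕ)
        (F : List Bool → (Idx Unit (shp n k) → Bool) → Bool),
        (∀ y : List Bool, y.length ≤ ℓ + k * (2 * m + 1) → DTr (2 ^ (2 * u)) (F y)) →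
        ∀ (y : X → List Bool), (∀ j, (y j).length ≤ ℓ) → ∀ (b : Bool) (Ψ : (X → Bool) → Bool),
        |∑ z, P true z * br (fun z => Ψ (fun j => QF m F k b (y j) z)) z -
          ∑ z, P false z * br (fun z => Ψ (fun j => QF m F k b (y j) z)) z| ≤
          2 * (k * (2 ^ (ℓ + k * (2 * m + 1) + 2) * (1 / 2) ^ (2 ^ (2 * u) + 1)) +
            ((2 ^ (2 * u) * Fintype.card X : ℕ) : ℝ) * (256 * (1 / 2 ^ (4 * n)))) := by
  classical
  obtain ⟨as, hlen, has, P, hP0, hP1, hPs, hP⟩ := exists_pair hn k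
  have hfa : List.Forall₂ (fun c c' => c ≤ c' ∧ 1 ≤ c') (8 * n :: pw as) (shp n k) :=
    List.Forall₂.cons ⟨le_rfl, by omega⟩ (fa_shp k as hlen has)
  have key : ∀ (t : Bool) (Φ : (Idx Unit (shp n k) → Bool) → ℝ),
      ∑ y, (∑ z, P t z * (if pad (8 * n :: pw as) (shp n k) z = y then 1 else 0)) * Φ y =
        ∑ z, P t z * Φ (pad (8 * n :: pw as) (shp n k) z) := by
    intro t Φ
    have h1 := sum_chg (fun _ : Unit => (1 : ℝ)) (fun _ z => P t z)
      (fun _ z => pad (8 * n :: pw as) (shp n k) z) Φ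
    simp only [univ_unique, sum_singleton, one_mul] at h1
    exact h1.symm
  refine ⟨fun t y => ∑ z, P t z * (if pad (8 * n :: pw as) (shp n k) z = y then 1 else 0), fun t y => ?_,
    fun t => ?_, fun t y hy => ?_, ?_⟩
  · exact sum_nonneg fun z _ => mul_nonneg (hP0 t z) (by split_ifs <;> norm_num)
  · have h1 := key t (fun _ => 1)
    simp only [mul_one] at h1
    rw [h1, hP1]
  · by_contra hcon
    apply hy
    refine sum_eq_zero fun z _ => ?_
    split_ifs with h1
    · rw [mul_one]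
      by_contra h2
      apply hcon
      rw [← h1, Tr_pad _ _ hfa, hPs t z h2]
    · rw [mul_zero]
  · intro X _ _ u hu m ℓ F hF y hy b Ψ
    rw [key, key]
    have h5 := hP X u hu m ℓ (fun y' z => F y' (pad (8 * n :: pw as) (shp n k) z))
      (fun y' hy' => Proj.DTr_co (pad_co (8 * n :: pw as) (shp n k)) (hF y' hy')) y hy b Ψ
    have hfun : ∀ z, br (fun z => Ψ (fun j => QF m F k b (y j) z)) (pad (8 * n :: pw as) (shp n k) z) =
        br (fun z => Ψ (fun j => QF m (fun y' z => F y' (pad (8 * n :: pw as) (shp n k) z)) k b (y j) z)) z := by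
      intro z
      have : (fun j => QF m F k b (y j) (pad (8 * n :: pw as) (shp n k) z)) = fun j =>
          QF m (fun y' z => F y' (pad (8 * n :: pw as) (shp n k) z)) k b (y j) z := by
        funext j
        rw [QF_comp m F (pad (8 * n :: pw as) (shp n k))]
      exact congrArg (fun v => if Ψ v = true then (1 : ℝ) else 0) this
    simp only [hfun]
    exact h5

end Pool.Agent.H9x.SP
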