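import Pool.Agent.H9x.SP.Or
import Pool.Agent.H9x.SP.Sip

/-!
# Blocks: forrelations and trees of gates
-/

set_option autoImplicit false
set_option linter.unusedSectionVars false

namespace Pool.Agent.H9x.SP

open Finset H568R2 Pool.Agent.H676 Pool.Agent.H620R2.Gauge Pool.Agent.NPC Pool.Agent.H591R3.PHG

open Pool.Agent.H591R3.PHG.FinalAux (DTv)
open Pool.Agent.H9x.RT (ll enc_cls FoC FoC_enc Yes No exists_dist del lv lv_switch del_le)
open Pool.Agent.H9x.RU (dtr_of_dtv)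

/-- two distributions of the contents of a block, for the two truth values -/
structure Blk where
  I : Type
  fI : Fintype I
  dI : DecidableEq I
  P : Bool → (I → Bool) → ℝ
  nn : ∀ t z, 0 ≤ P t z
  s1 : ∀ t, ∑ z, P t z = 1
  enc : (I → Bool) → List Bool → Bool
  cls : ∀ v, (∃ i, ∀ z, enc z v = z i) ∨ ∀ z, enc z v = false
  good : Bool → (List Bool → Bool) → Prop
  sup : ∀ t z, P t z ≠ 0 → good t (enc z)

instance (B : Blk) : Fintype B.I := B.fI
instance (B : Blk) : DecidableEq B.I := B.dI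

/-- at most `N` shallow decision trees preceded by `k` quantifiers do not distinguish the two
contents -/
def Fools (B : Blk) (k u N Λ : ℕ) (δ : ℝ) : Prop :=
  ∀ (X : Type) [Fintype X] [DecidableEq X], Fintype.card X ≤ N → ∀ (m ℓ : ℕ)
    (F : List Bool → (B.I → Bool) → Bool), ℓ + k * (2 * m + 1) ≤ Λ →
    (∀ y : List Bool, y.length ≤ ℓ + k * (2 * m + 1) → DTr (2 ^ (2 * u)) (F y)) →
    ∀ (y : X → List Bool), (∀ j, (y j).length ≤ ℓ) → ∀ (b : Bool) (Ψ : (X → Bool) → Bool),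
    |∑ z, B.P true z * br (fun z => Ψ (fun j => QF m F k b (y j) z)) z -
      ∑ z, B.P false z * br (fun z => Ψ (fun j => QF m F k b (y j) z)) z| ≤ δ

theorem Fools.mono {B : Blk} {k u N Λ : ℕ} {δ δ' : ℝ} (h : Fools B k u N Λ δ) (hd : δ ≤ δ') :
    Fools B k u N Λ δ' := fun X _ _ hX m ℓ F hℓ hF y hy b Ψ =>
  (h X hX m ℓ F hℓ hF y hy b Ψ).trans hd

section

variable {I : Type} [Fintype I] [DecidableEq I]

open Classical in
/-- **The second level of a combination of alternating quantifiers.** -/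
theorem lv_comb {X : Type} [Fintype X] [DecidableEq X] {t : ℕ} (ht : 1 ≤ t) (m k ℓ : ℕ)
    (F : List Bool → (I → Bool) → Bool)
    (hF : ∀ y : List Bool, y.length ≤ ℓ + k * (2 * m + 1) → DTr t (F y)) (y : X → List Bool)
    (hy : ∀ j, (y j).length ≤ ℓ) (b : Bool) (Ψ : (X → Bool) → Bool)
    (hβ : k * 2 ^ (ℓ + k * (2 * m + 1) + 2) * Fintype.card I ^ 2 ≤ 2 ^ (t + 1))
    (ρ₀ : Restr I) :
    lv 2 (br (rs (fun z => Ψ (fun j => QF m F k b (y j) z)) ρ₀)) 0 ≤
      ((((t * Fintype.card X : ℕ) : ℝ)) ^ 2 + 1) * (24 * (t : ℝ)) ^ (2 * k) := by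
  have htR : (1 : ℝ) ≤ t := by exact_mod_cast ht
  set q : ℝ := 1 / (24 * t) with hq
  have h0 : 0 < q := by positivity
  have h1 : q ≤ 1 / 3 := by
    rw [hq]
    refine one_div_le_one_div_of_le (by norm_num) (by linarith)
  have hhalf : 12 * (t : ℝ) * q = 1 / 2 := by
    rw [hq]
    field_simp
    norm_num
  set F' : List Bool → (I → Bool) → Bool := fun y z => F y (H568R2.ov ρ₀ z) with hF'
  have hF1 : ∀ y : List Bool, y.length ≤ ℓ + k * (2 * m + 1) → DTr t (F' y) := fun y hy =>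
    (hF y hy).rs (ρ := ρ₀)
  set f' : (I → Bool) → Bool := rs (fun z => Ψ (fun j => QF m F k b (y j) z)) ρ₀ with hf'
  have hff : ∀ z, f' z = Ψ (fun j => QF m F' k b (y j) z) := by
    intro z
    show Ψ (fun j => QF m F k b (y j) (H568R2.ov ρ₀ z)) = _
    congr 1
    funext j
    rw [QF_comp m F (H568R2.ov ρ₀) k b (y j) z]
  have hsw := switch_alt ht h0.le h1 m F' k ℓ hF1
  rw [hhalf] at hsw
  have hw : ∀ a, 0 ≤ wq (q ^ k) a :=
    wq_nonneg (pow_nonneg h0.le k) (pow_le_one₀ h0.le (by linarith))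
  have hfin : Ex (wq (q ^ k)) (fun ρ : Restr I => if ¬ DTr (t * Fintype.card X) (rs f' ρ)
      then (1 : ℝ) else 0) ≤ k * 2 ^ (ℓ + k * (2 * m + 1) + 2) * (1 / 2) ^ (t + 1) := by
    refine (Ex_mono hw fun ρ => ?_).trans hsw
    by_cases hg : ∀ y : List Bool, y.length ≤ ℓ → ∀ b, DTr t (rs (QF m F' k b y) ρ)
    · rw [if_neg (not_not.2 hg), if_neg]
      rw [not_not]
      have h2 := (DTv.all (g := fun j => rs (QF m F' k b (y j)) ρ) fun j => hg (y j) (hy j) b).map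
        Ψ
      have h3 := dtr_of_dtv h2
      refine (congrArg (DTr (t * Fintype.card X)) ?_).mp h3
      funext z
      exact (hff (H568R2.ov ρ z)).symm
    · rw [if_pos hg]
      split_ifs <;> norm_num
  have hp0 : 0 < q ^ k := by positivity
  have hp1 : q ^ k ≤ 1 := pow_le_one₀ h0.le (by linarith)
  have h2 := lv_switch hp0 hp1 f' hfin
  refine h2.trans ?_
  have h3 : ((k : ℝ) * 2 ^ (ℓ + k * (2 * m + 1) + 2) * (1 / 2) ^ (t + 1)) *
      (Fintype.card I : ℝ) ^ 2 ≤ 1 := by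
    have h4 : ((k * 2 ^ (ℓ + k * (2 * m + 1) + 2) * Fintype.card I ^ 2 : ℕ) : ℝ) ≤
        ((2 ^ (t + 1) : ℕ) : ℝ) := by exact_mod_cast hβ
    push_cast at h4
    have h6 : (1 / 2 : ℝ) ^ (t + 1) * 2 ^ (t + 1) = 1 := by
      rw [← mul_pow]; norm_num
    have h7 : (0 : ℝ) ≤ (1 / 2 : ℝ) ^ (t + 1) := by positivity
    calc _ = ((k : ℝ) * 2 ^ (ℓ + k * (2 * m + 1) + 2) * (Fintype.card I : ℝ) ^ 2) *
          (1 / 2 : ℝ) ^ (t + 1) := by ring
      _ ≤ 2 ^ (t + 1) * (1 / 2 : ℝ) ^ (t + 1) := mul_le_mul_of_nonneg_right h4 h7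
      _ = 1 := by rw [mul_comm]; exact h6
  rw [div_le_iff₀ (by positivity)]
  have h8 : (24 * (t : ℝ)) ^ (2 * k) * (q ^ k) ^ 2 = 1 := by
    rw [← pow_mul, mul_comm k 2, ← mul_pow, hq]
    rw [mul_one_div_cancel (by positivity), one_pow]
  have h9 : ((((t * Fintype.card X : ℕ) : ℝ)) ^ 2 + 1) * (24 * (t : ℝ)) ^ (2 * k) *
      (q ^ k) ^ 2 = (((t * Fintype.card X : ℕ) : ℝ)) ^ 2 + 1 := by rw [mul_assoc, h8, mul_one]
  rw [h9]
  linarith

end

/-- the common bound -/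
noncomputable def LB (u N k : ℕ) : ℝ := (((2 ^ (2 * u) * N : ℕ) : ℝ) ^ 2 + 1) *
  (24 * ((2 ^ (2 * u) : ℕ) : ℝ)) ^ (2 * k)

theorem one_le_LB (u N k : ℕ) : 1 ≤ LB u N k := by
  unfold LB
  have h1 : (1 : ℝ) ≤ ((2 ^ (2 * u) * N : ℕ) : ℝ) ^ 2 + 1 := by nlinarith
  have h2 : (1 : ℝ) ≤ ((2 ^ (2 * u) : ℕ) : ℝ) := by exact_mod_cast Nat.one_le_two_pow
  have h3 : (1 : ℝ) ≤ (24 * ((2 ^ (2 * u) : ℕ) : ℝ)) ^ (2 * k) :=
    one_le_pow₀ (by linarith)
  nlinarith

theorem sq_le_LB (u N k : ℕ) : ((2 ^ (2 * u) * N : ℕ) : ℝ) ≤ LB u N k := by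
  unfold LB
  have h2 : (1 : ℝ) ≤ ((2 ^ (2 * u) : ℕ) : ℝ) := by exact_mod_cast Nat.one_le_two_pow
  have h3 : (1 : ℝ) ≤ (24 * ((2 ^ (2 * u) : ℕ) : ℝ)) ^ (2 * k) :=
    one_le_pow₀ (by linarith)
  have h4 : ((2 ^ (2 * u) * N : ℕ) : ℝ) ≤ ((2 ^ (2 * u) * N : ℕ) : ℝ) ^ 2 + 1 := by
    nlinarith [sq_nonneg (((2 ^ (2 * u) * N : ℕ) : ℝ) - 1)]
  have h5 : (0 : ℝ) ≤ ((2 ^ (2 * u) * N : ℕ) : ℝ) ^ 2 + 1 := by positivity
  nlinarith

/-- the block given by two distributions of forrelation instances -/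
def mkFor (s : ℕ) (P Q : ((Fin (ll s) → Bool) ⊕ (Fin (ll s) → Bool) → Bool) → ℝ)
    (hP0 : ∀ a, 0 ≤ P a) (hP1 : ∑ a, P a = 1) (hQ0 : ∀ a, 0 ≤ Q a) (hQ1 : ∑ a, Q a = 1)
    (hP : ∀ a, P a ≠ 0 → Yes s (RT.enc (ll s) a)) (hQ : ∀ a, Q a ≠ 0 → No s (RT.enc (ll s) a)) :
    Blk where
  I := (Fin (ll s) → Bool) ⊕ (Fin (ll s) → Bool)
  fI := inferInstance
  dI := inferInstance
  P := fun t => match t with
    | true => P
    | false => Q
  nn := fun t => match t with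
    | true => hP0
    | false => hQ0
  s1 := fun t => match t with
    | true => hP1
    | false => hQ1
  enc := RT.enc (ll s)
  cls := enc_cls (ll s)
  good := fun t V => match t with
    | true => Yes s V
    | false => No s V
  sup := fun t => match t with
    | true => hP
    | false => hQ

theorem card_for (s : ℕ) :
    Fintype.card ((Fin (ll s) → Bool) ⊕ (Fin (ll s) → Bool)) = 2 ^ (ll s + 1) := by
  rw [Fintype.card_sum]
  simp only [Fintype.card_fun, Fintype.card_bool, Fintype.card_fin]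
  rw [pow_succ]
  ring

theorem LB_mono {u N N' k : ℕ} (h : N' ≤ N) : LB u N' k ≤ LB u N k := by
  unfold LB
  have h1 : ((2 ^ (2 * u) * N' : ℕ) : ℝ) ≤ ((2 ^ (2 * u) * N : ℕ) : ℝ) := by
    exact_mod_cast Nat.mul_le_mul_left _ h
  have h2 : (0 : ℝ) ≤ ((2 ^ (2 * u) * N' : ℕ) : ℝ) := Nat.cast_nonneg _
  refine mul_le_mul_of_nonneg_right ?_ (by positivity)
  nlinarith

/-- **The blocks of forrelations.** -/
theorem exists_for (s : ℕ) : ∃ B : Blk,
    (∀ V, B.good true V ↔ Yes s V) ∧ (∀ V, B.good false V ↔ No s V) ∧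
    ∀ k u N Λ : ℕ, Λ + 16 * s + 84 + k ≤ 2 ^ (2 * u) → Fools B k u N Λ (107 * LB u N k / 8 ^ s) := by
  obtain ⟨P, Q, hP0, hP1, hPG, hQ0, hQ1, hQG, hPQ⟩ := exists_dist (l := ll s) (by unfold ll; omega)
  refine ⟨mkFor s P Q hP0 hP1 hQ0 hQ1 (fun z hz => ?_) (fun z hz => ?_), fun V => Iff.rfl,
    fun V => Iff.rfl, fun k u N Λ hΛ => ?_⟩
  · show 1 / (64 * ((ll s : ℕ) : ℝ)) ≤ FoC (RT.enc (ll s) z) (ll s)
    rw [FoC_enc]
    exact hPG z hz
  · show |FoC (RT.enc (ll s) z) (ll s)| ≤ 1 / (256 * ((ll s : ℕ) : ℝ))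
    rw [FoC_enc]
    exact hQG z hz
  · intro X _ _ hX m ℓ F hℓ hF y hy b Ψ
    have h1 := hPQ (fun z => Ψ (fun j => QF m F k b (y j) z)) (LB u N k) (one_le_LB u N k)
      fun ρ => (lv_comb (t := 2 ^ (2 * u)) Nat.one_le_two_pow m k ℓ F hF y hy b Ψ (by
        show k * 2 ^ (ℓ + k * (2 * m + 1) + 2) *
          Fintype.card ((Fin (ll s) → Bool) ⊕ (Fin (ll s) → Bool)) ^ 2 ≤ _
        rw [card_for]
        calc k * 2 ^ (ℓ + k * (2 * m + 1) + 2) * (2 ^ (ll s + 1)) ^ 2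
            ≤ 2 ^ k * 2 ^ (Λ + 2) * (2 ^ (ll s + 1)) ^ 2 :=
              Nat.mul_le_mul_right _ (Nat.mul_le_mul Nat.lt_two_pow_self.le
                (Nat.pow_le_pow_right (by norm_num) (by omega)))
          _ = 2 ^ (k + (Λ + 2) + (ll s + 1) * 2) := by
              rw [← pow_mul, ← pow_add, ← pow_add]
          _ ≤ 2 ^ (2 ^ (2 * u) + 1) := by
              refine Nat.pow_le_pow_right (by norm_num) ?_
              unfold ll
              omega) ρ).trans (LB_mono hX)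
    exact h1.trans (del_le s (by have := one_le_LB u N k; linarith))

/-! ### Trees -/

/-- the value of the tree of the fixed shape -/
def sval (s k : ℕ) (V : List Bool → Bool) : Bool :=
  ((List.replicate (k + 1) (64 * s)).foldl (fun v a => up a v) (bitv V (8 * s))) []

/-- the content given by the leaves -/
noncomputable def senc (s k : ℕ) (z : Idx Unit (shp s k) → Bool) : List Bool → Bool :=
  Function.extend (fun g : Idx Unit (8 * s :: pw (List.replicate (k + 1) (64 * s))) =>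
    addr (fun _ : Unit => ([] : List Bool)) (List.replicate (k + 1) (64 * s)) g.1 ++
      List.replicate g.2.val true) z (fun _ => false)

theorem senc_inj (s k : ℕ) : Function.Injective
    (fun g : Idx Unit (8 * s :: pw (List.replicate (k + 1) (64 * s))) =>
      addr (fun _ : Unit => ([] : List Bool)) (List.replicate (k + 1) (64 * s)) g.1 ++
        List.replicate g.2.val true) :=
  leaf_inj (fun _ : Unit => ([] : List Bool)) (fun _ _ _ => rfl) 0 (fun _ => rfl) _ _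

theorem senc_cls (s k : ℕ) (v : List Bool) :
    (∃ i, ∀ z : Idx Unit (shp s k) → Bool, senc s k z v = z i) ∨
      ∀ z : Idx Unit (shp s k) → Bool, senc s k z v = false := by
  by_cases h : ∃ g : Idx Unit (8 * s :: pw (List.replicate (k + 1) (64 * s))),
      addr (fun _ : Unit => ([] : List Bool)) (List.replicate (k + 1) (64 * s)) g.1 ++
        List.replicate g.2.val true = v
  · obtain ⟨g, hg⟩ := h
    left
    refine ⟨g, fun z => ?_⟩
    rw [← hg]
    exact (senc_inj s k).extend_apply z _ g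
  · right
    intro z
    unfold senc
    rw [Function.extend_apply' _ _ _ h]

theorem sval_senc (s k : ℕ) (z : Idx Unit (shp s k) → Bool) :
    sval s k (senc s k z) = Tr (shp s k) z () := by
  have h1 := LangTrAux.Tr_addr (fun _ : Unit => ([] : List Bool))
    (List.replicate (k + 1) (64 * s)) (bitv (senc s k z) (8 * s)) ()
  unfold sval
  rw [← h1]
  show _ = Tr (pw (List.replicate (k + 1) (64 * s)))
    (fun g => decide (∀ i : Fin (8 * s), z (g, i) = false)) ()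
  congr 1
  funext g
  unfold bitv
  rw [decide_eq_decide]
  have key : ∀ i : Fin (8 * s), senc s k z (addr (fun _ : Unit => ([] : List Bool))
      (List.replicate (k + 1) (64 * s)) g ++ List.replicate i.val true) = z (g, i) :=
    fun i => (senc_inj s k).extend_apply z _ (g, i)
  constructor
  · intro h i
    rw [← key i]
    exact h i.val i.isLt
  · intro h i hi
    exact (key ⟨i, hi⟩).trans (h ⟨i, hi⟩)

/-- **The blocks of trees.** -/
theorem exists_sipB {s : ℕ} (hs : 5 ≤ s) (k : ℕ) : ∃ B : Blk,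
    (∀ t V, B.good t V ↔ sval s k V = !t) ∧
    ∀ u N Λ : ℕ, 8 * u ≤ s → Λ + 3 * s + 84 + k ≤ 2 ^ (2 * u) →
      Fools B k u N Λ (107 * LB u N k / 8 ^ s) := by
  obtain ⟨P, hP0, hP1, hPs, hP⟩ := exists_sip hs k
  refine ⟨⟨Idx Unit (shp s k), inferInstance, inferInstance, fun t => P (!t), fun t z => hP0 _ z,
    fun t => hP1 _, senc s k, senc_cls s k, fun t V => sval s k V = !t, fun t z hz => ?_⟩,
    fun t V => Iff.rfl, fun u N Λ hu hΛ X _ _ hX m ℓ F hℓ hF y hy b Ψ => ?_⟩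
  · rw [sval_senc]
    exact hPs _ z hz
  · have h1 := hP X u hu m ℓ F hF y hy b Ψ
    rw [abs_sub_comm]
    refine h1.trans ?_
    have hL := sq_le_LB u N k
    have hL1 := one_le_LB u N k
    have e1 : ((2 ^ (2 * u) * Fintype.card X : ℕ) : ℝ) ≤ LB u N k :=
      le_trans (by exact_mod_cast Nat.mul_le_mul_left _ hX) hL
    have h8 : (0 : ℝ) < 8 ^ s := by positivity
    have e2 : (256 : ℝ) * (1 / 2 ^ (4 * s)) ≤ 8 / 8 ^ s := by
      have h2 : (2 : ℝ) ^ (4 * s) = 8 ^ s * 2 ^ s := by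
        rw [← mul_pow, pow_mul]
        norm_num
      have h3 : (32 : ℝ) ≤ 2 ^ s := by
        calc (32 : ℝ) = 2 ^ 5 := by norm_num
          _ ≤ 2 ^ s := pow_le_pow_right₀ (by norm_num) hs
      rw [h2, mul_one_div, div_le_div_iff₀ (by positivity) (by positivity)]
      nlinarith
    have e3 : (k : ℝ) * (2 ^ (ℓ + k * (2 * m + 1) + 2) * (1 / 2) ^ (2 ^ (2 * u) + 1)) ≤
        1 / 8 ^ s := by
      have h2 : (k : ℝ) * 2 ^ (ℓ + k * (2 * m + 1) + 2) * 8 ^ s ≤ 2 ^ (2 ^ (2 * u) + 1) := by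
        have h3 : k * 2 ^ (ℓ + k * (2 * m + 1) + 2) * 8 ^ s ≤ 2 ^ (2 ^ (2 * u) + 1) := by
          calc k * 2 ^ (ℓ + k * (2 * m + 1) + 2) * 8 ^ s
              ≤ 2 ^ k * 2 ^ (Λ + 2) * 8 ^ s :=
                Nat.mul_le_mul_right _ (Nat.mul_le_mul Nat.lt_two_pow_self.le
                  (Nat.pow_le_pow_right (by norm_num) (by omega)))
            _ = 2 ^ (k + (Λ + 2) + 3 * s) := by
                rw [← pow_add, show (8 : ℕ) = 2 ^ 3 by norm_num, ← pow_mul, ← pow_add]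
            _ ≤ 2 ^ (2 ^ (2 * u) + 1) := Nat.pow_le_pow_right (by norm_num) (by omega)
        exact_mod_cast h3
      have h4 : (0 : ℝ) < 2 ^ (2 ^ (2 * u) + 1) := pow_pos (by norm_num) _
      have h5 : (k : ℝ) * (2 ^ (ℓ + k * (2 * m + 1) + 2) * (1 / 2) ^ (2 ^ (2 * u) + 1)) =
          ((k : ℝ) * 2 ^ (ℓ + k * (2 * m + 1) + 2)) / 2 ^ (2 ^ (2 * u) + 1) := by
        rw [one_div_pow, mul_one_div, mul_div_assoc]
      rw [h5, div_le_div_iff₀ h4 h8, one_mul]
      exact h2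
    have e4 : ((2 ^ (2 * u) * Fintype.card X : ℕ) : ℝ) * (256 * (1 / 2 ^ (4 * s))) ≤
        LB u N k * (8 / 8 ^ s) := mul_le_mul e1 e2 (by positivity) (by linarith)
    have e5 : 1 / (8 : ℝ) ^ s ≤ LB u N k / 8 ^ s := div_le_div_of_nonneg_right hL1 h8.le
    have e6 : LB u N k * (8 / 8 ^ s) = 8 * (LB u N k / 8 ^ s) := by ring
    have e7 : 107 * LB u N k / 8 ^ s = 107 * (LB u N k / 8 ^ s) := by ring
    have e8 : 0 ≤ LB u N k / 8 ^ s := by positivity
    rw [e7]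
    linarith

end Pool.Agent.H9x.SP
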