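import Pool.Agent.H9x.SP.WorldA
import Pool.Agent.H620R2.Gauge.U1

/-!
# Worlds in which `BQP` is inside the polynomial hierarchy, at exactly the level `k + 1`

For every `k` there is an oracle relative to which `BQP = PSPACE = Σ_{k+1}`, while some language in
`BQP` is not decided by `Σ_k` computations of length `2 ^ o(n)`.
-/

set_option autoImplicit false

namespace Pool.Agent.Results.MP_2eaaa0_lc.ExactLevel

open Pool.Agent.NPC Pool.Agent.H620R2.Gauge Pool.Agent.H9x.Q Pool.Agent.H591R3.PHG Filter

/-- The language `L` is in `Σ_k TIME(2 ^ o(n))` relative to `A`: for some function `h n = o(n)`,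
membership of an input `x` of length `n` is expressed by `k` alternating quantifiers, the first one
existential, over the strings of length at most `2 ^ h n`, in front of a predicate of `x`, the
string of `2 ^ h n` ones and the quantified strings, which is in polynomial time relative to `A`. -/
def IsSigSubexp (A : Oracle) (k : ℕ) (L : Set (List Bool)) : Prop :=
  ∃ (V : List Bool → List Bool) (h : ℕ → ℕ), IsFP A V ∧
    (∀ c : ℕ, ∀ᶠ n : ℕ in atTop, c * h n ≤ n) ∧
    ∀ x : List Bool, x ∈ L ↔
      Quant (2 ^ h x.length) V k true (pairBits (List.replicate (2 ^ h x.length) true) x)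

theorem result (k : ℕ) :
    ∃ A : Oracle, (∀ L, IsPSPACE A L → IsBQP A L ∧ IsSig A (k + 1) L) ∧
      ∃ L, IsBQP A L ∧ IsSig A (k + 1) L ∧ ¬ IsSigSubexp A k L := by
  obtain ⟨A, h1, L, h2, h3⟩ := Pool.Agent.H9x.SP.worldA k
  have h4 : IsPSPACE A L := by
    obtain ⟨V, p, hV, hx⟩ := h2
    exact IsPH.isPSPACE ⟨V, p, k + 1, hV, hx⟩
  refine ⟨A, h1, L, (h1 L h4).1, h2, ?_⟩
  rintro ⟨V, h, hV, hh, hx⟩
  obtain ⟨x, hx'⟩ := h3 V h hV hh
  exact hx' (hx x)

end Pool.Agent.Results.MP_2eaaa0_lc.ExactLevel
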