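import Pool.Agent.H9x.SP.Blk

/-!
# One step of the construction
-/

set_option autoImplicit false

namespace Pool.Agent.H9x.SP

open Finset H568R2 Pool.Agent.H676 Pool.Agent.H620R2.Gauge Pool.Agent.NPC Pool.Agent.H591R3.PHG
  Pool.Agent.H622R2 Pool.Agent.H622R2.Exp

open Pool.Agent.H9x.RT (mkp EE EC EC_le hyb block_diff)
open Pool.Agent.H9x.RU (fo la le_la Rt rt_iff lf dtr_lf SZ exists_SZ EE_ge)

variable {Y : Sys}

theorem fo_orc (D : Dt Y.K) : fo (orc Y D) = D.fr := funext fun u => orc_free D u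

open Classical in
/-- the free strings -/
theorem free_le {n u k P T Λ ℓ : ℕ} {M : Alg} {as : List ℕ} (hn : 5 ≤ n) (hu : 8 * u ≤ n)
    (hsz : SZ n u k as)
    {F : (Idx (Fin (2 ^ (u + 11))) (8 * n :: pw as) → Bool) → Dt Y.K} (hF : Fam Y n T F)
    (hfr : ∀ y g, (F y).fr (la (fun j : Fin (2 ^ (u + 11)) => enc as (8 * n)
      (bitsOf (u + 11) j)) as (8 * n) g) = y g)
    (hℓ : ∀ j : Fin (2 ^ (u + 11)), (pairBits (List.replicate P true) (enc as (8 * n)
      (bitsOf (u + 11) j))).length ≤ ℓ) (hΛ : ℓ + k * (2 * P + 1) ≤ Λ)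
    (hcut : ∀ (A : Oracle) (y : List Bool), y.length ≤ Λ → M.out (CC.cut T A) y = M.out A y)
    (hp : ∀ y : List Bool, y.length ≤ Λ → M.p.eval y.length ≤ 2 ^ (2 * u)) :
    ∑ y : Idx (Fin (2 ^ (u + 11))) (8 * n :: pw as) → Bool, (∏ i, ber (1 / 2) (y i)) *
      (if Rt k P M (fun j : Fin (2 ^ (u + 11)) => enc as (8 * n) (bitsOf (u + 11) j))
        (orc Y (F y)) then (1 : ℝ) else 0) ≤
      k * (2 ^ (ℓ + k * (2 * P + 1) + 2) * (1 / 2) ^ (2 ^ (2 * u) + 1)) +
        3 * (1 / 2) ^ (2 ^ u) := by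
  obtain ⟨h1, h2, h3⟩ := hsz
  have hlen : (pw as).length = k + 1 := by
    rw [pw, List.length_map]; exact h1
  have hml := main_leaf (X := Fin (2 ^ (u + 11))) (n := n) (u := u) (D := 2 ^ (3 * u + 11))
    (g := 2 ^ (u + 9)) hn hu (by
      rw [Fintype.card_fin, ← pow_add]
      exact Nat.pow_le_pow_right (by norm_num) (by omega)) k (pw as) hlen P ℓ
    (lf M T fun y => orc Y (F y)) (fun y hy => dtr_lf hF.smp M y (hp y (by omega)))
    (fun j : Fin (2 ^ (u + 11)) => pairBits (List.replicate P true) (enc as (8 * n)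
      (bitsOf (u + 11) j))) hℓ true
  have h6 := final_numbers hn hu
  refine le_trans (le_of_eq ?_) (hml.trans (by linarith))
  unfold Ms Ex
  refine sum_congr rfl fun y _ => ?_
  congr 1
  have h7 : Rt k P M (fun j : Fin (2 ^ (u + 11)) => enc as (8 * n) (bitsOf (u + 11) j))
      (orc Y (F y)) ↔ ∀ j : Fin (2 ^ (u + 11)), QF P (lf M T fun y => orc Y (F y)) k true
        (pairBits (List.replicate P true) (enc as (8 * n) (bitsOf (u + 11) j))) y ≠
        Tr (8 * n :: pw as) (leaves (fun j : Fin (2 ^ (u + 11)) => enc as (8 * n)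
          (bitsOf (u + 11) j)) as (8 * n) (fo (orc Y (F y)))) j :=
    rt_iff (T := T) (Λ := Λ) (M := M) h1 (fun j : Fin (2 ^ (u + 11)) => bitsOf (u + 11) j)
      (fun j => (Nat.add_le_add_right (hℓ j) _).trans hΛ) hcut (fun y => orc Y (F y)) y
  have h8 : leaves (fun j : Fin (2 ^ (u + 11)) => enc as (8 * n) (bitsOf (u + 11) j)) as (8 * n)
      (fo (orc Y (F y))) = Pool.Agent.H591R3.PHG.val (fun _ => none) y := by
    funext g'
    rw [fo_orc]
    exact hfr y g'
  rw [h8] at h7
  by_cases h9 : Rt k P M (fun j : Fin (2 ^ (u + 11)) => enc as (8 * n) (bitsOf (u + 11) j))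
        (orc Y (F y))
  · rw [if_pos h9]
    exact (if_pos (h7.1 h9)).symm
  · rw [if_neg h9]
    exact (if_neg fun h => h9 (h7.2 h)).symm

/-- one block varies -/
theorem fam_block {s T : ℕ} (B : Blk) (c : Y.K) (hs : Y.lev c = s)
    {D : Y.K → Bool → List Bool → Bool} (fr : List Bool → Bool)
    (hcol : ∀ c', c' ≠ c → Y.lev c ≤ Y.lev c' → Y.lev c' ≤ T →
      Y.lev c' = Y.lev c ∨ D c' true = D c' false) :
    Fam Y s T (fun z : B.I → Bool =>
      (⟨Function.update D c (mkp (B.enc z) (B.enc z)), fr⟩ : Dt Y.K)) := by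
  subst hs
  refine ⟨fun c' h1 z z' => ?_, fun v _ z z' => rfl, fun c' h1 h2 => ?_,
    fun v => Or.inl ⟨fr v, fun z => rfl⟩⟩
  · have hne : c' ≠ c := by rintro rfl; exact absurd h1 (lt_irrefl _)
    show Function.update D c _ c' = Function.update D c _ c'
    rw [Function.update_of_ne hne, Function.update_of_ne hne]
  · by_cases hne : c' = c
    · right
      intro v
      subst hne
      rcases B.cls v with ⟨i₀, hi₀⟩ | h0
      · right
        refine ⟨i₀, fun z t => ?_⟩
        show Function.update D c' _ c' t v = _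
        rw [Function.update_self, ← hi₀ z]
        cases t <;> rfl
      · left
        refine ⟨false, fun z t => ?_⟩
        show Function.update D c' _ c' t v = _
        rw [Function.update_self, ← h0 z]
        cases t <;> rfl
    · left
      refine ⟨fun z z' => ?_, ?_⟩
      · show Function.update D c _ c' = Function.update D c _ c'
        rw [Function.update_of_ne hne, Function.update_of_ne hne]
      · rcases hcol c' hne h1 h2 with h3 | h3
        · exact Or.inl h3
        · right
          intro z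
          show Function.update D c _ c' true = Function.update D c _ c' false
          rw [Function.update_of_ne hne]
          exact h3

/-- the blocks are good -/
def Good (Bk : Y.K → Blk) (B : Y.K → Bool → List Bool → Bool) : Prop :=
  ∀ c t, (Bk c).good t (B c t)

theorem one_step (Bk : Y.K → Blk) {n u k T Pm Λ m₀ : ℕ} (M : Alg) {as : List ℕ} (hn : 5 ≤ n)
    (hu : 8 * u ≤ n) (hsz : SZ n u k as)
    (hm : ∀ j : Fin (2 ^ (u + 11)), (enc as (8 * n) (bitsOf (u + 11) j)).length = m₀)
    (hnm : n ≤ m₀) (hΛ : (k + 1) * (2 * Pm + 1) + m₀ ≤ Λ)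
    (hp : ∀ y : List Bool, y.length ≤ Λ → M.p.eval y.length ≤ 2 ^ (2 * u))
    (hcut : ∀ (A : Oracle) (y : List Bool), y.length ≤ Λ → M.out (CC.cut T A) y = M.out A y)
    (C : List Y.K) (hCn : C.Nodup) (hCm : ∀ c, c ∈ C ↔ n ≤ Y.lev c ∧ Y.lev c ≤ T)
    (hCp : C.Pairwise (fun a b => Y.lev a ≤ Y.lev b)) (δ : Y.K → ℝ) (hδ : ∀ c ∈ C, 0 ≤ δ c)
    (hfool : ∀ c ∈ C, Fools (Bk c) k u (2 ^ (u + 11)) Λ (δ c))
    (hnum : ((Pm : ℝ) + 1) * (k * (2 ^ (Λ + 2) * (1 / 2) ^ (2 ^ (2 * u) + 1)) +
        3 * (1 / 2) ^ (2 ^ u)) + ((Pm : ℝ) + 1) * (C.map δ).sum < 1)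
    (D : Dt Y.K) (hD : Good Bk D.bl) :
    ∃ D' : Dt Y.K, Good Bk D'.bl ∧ (∀ c, Y.lev c < n → D'.bl c = D.bl c) ∧
      (∀ v : List Bool, v.length < n → D'.fr v = D.fr v) ∧
      ∀ P ≤ Pm, ¬ Rt k P M (fun j : Fin (2 ^ (u + 11)) => enc as (8 * n) (bitsOf (u + 11) j))
        (orc Y D') := by
  classical
  by_contra hcon
  push Not at hcon
  set xs : Fin (2 ^ (u + 11)) → List Bool := fun j => enc as (8 * n) (bitsOf (u + 11) j) with hxs
  have hxi : Function.Injective xs := by
    intro j j' h
    have h1 := enc_inj _ _ h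
    exact Fin.ext (bitsOf_inj j.isLt j'.isLt h1)
  have hli : Function.Injective (la xs as (8 * n)) := leaf_inj xs hxi m₀ hm as (8 * n)
  set frn : (Idx (Fin (2 ^ (u + 11))) (8 * n :: pw as) → Bool) → List Bool → Bool :=
    fun y => Function.extend (la xs as (8 * n)) y D.fr with hfrn
  have hfr1 : ∀ y a, frn y (la xs as (8 * n) a) = y a := fun y a => hli.extend_apply _ _ _
  have hfr2 : ∀ (y : Idx (Fin (2 ^ (u + 11))) (8 * n :: pw as) → Bool) (v : List Bool),
      (¬ ∃ a, la xs as (8 * n) a = v) → frn y v = D.fr v :=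
    fun y v hv => Function.extend_apply' _ _ _ hv
  have hfr3 : ∀ (y : Idx (Fin (2 ^ (u + 11))) (8 * n :: pw as) → Bool) (v : List Bool),
      v.length < n → frn y v = D.fr v := by
    intro y v hv
    refine hfr2 y v ?_
    rintro ⟨a, rfl⟩
    have := le_la (xs := xs) hm as (8 * n) a
    omega
  set wt : ℕ × (Idx (Fin (2 ^ (u + 11))) (8 * n :: pw as) → Bool) → ℝ :=
    fun i => ∏ a, ber (1 / 2) (i.2 a) with hwt
  set IX : Finset (ℕ × (Idx (Fin (2 ^ (u + 11))) (8 * n :: pw as) → Bool)) :=
    range (Pm + 1) ×ˢ univ with hIX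
  set φ : ℕ × (Idx (Fin (2 ^ (u + 11))) (8 * n :: pw as) → Bool) →
    (Y.K → Bool → List Bool → Bool) → ℝ :=
    fun i B => if Rt k i.1 M xs (orc Y ⟨B, frn i.2⟩) then 1 else 0 with hφ
  set F : (Y.K → Bool → List Bool → Bool) → ℝ := fun B =>
    ∑ i ∈ IX, wt i * φ i B with hF
  have hwt0 : ∀ i, 0 ≤ wt i := fun i => prod_nonneg fun a _ =>
    ber_nonneg_m (by norm_num) (by norm_num) _
  have hwt1 : ∑ y : Idx (Fin (2 ^ (u + 11))) (8 * n :: pw as) → Bool,
      ∏ a, ber (1 / 2) (y a) = 1 := by
    have := Ex_const (I := Idx (Fin (2 ^ (u + 11))) (8 * n :: pw as)) (ber_sum_m (1 / 2)) 1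
    unfold Ex at this
    simpa using this
  have hwtS : ∑ i ∈ IX, wt i = (Pm : ℝ) + 1 := by
    rw [hIX, sum_product]
    simp only [hwt]
    rw [hwt1, sum_const, card_range, nsmul_eq_mul, mul_one]
    push_cast
    rfl
  have hk : as.length = k + 1 := hsz.1
  have hlen : ∀ (P' : ℕ) (j : Fin (2 ^ (u + 11))),
      (pairBits (List.replicate P' true) (enc as (8 * n) (bitsOf (u + 11) j))).length ≤
        2 * P' + 1 + m₀ := by
    intro P' j
    rw [length_pairBits, List.length_replicate, hm j]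
  have hΛP : ∀ P' ≤ Pm, 2 * P' + 1 + m₀ + k * (2 * P' + 1) ≤ Λ := by
    intro P' hP'
    have h1 : (k + 1) * (2 * P' + 1) ≤ (k + 1) * (2 * Pm + 1) :=
      Nat.mul_le_mul_left _ (by omega)
    have h2 : (k + 1) * (2 * P' + 1) = k * (2 * P' + 1) + (2 * P' + 1) := by ring
    omega
  -- the hybrid argument
  have hhyb := hyb (K := Y.K) (Z := fun c => (Bk c).I → Bool) (P := fun c => (Bk c).P true)
    (Q := fun c => (Bk c).P false)
    (enc := fun c => (Bk c).enc) (fun c => (Bk c).nn true) (fun c => (Bk c).s1 true)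
    (fun c => (Bk c).nn false) (fun c => (Bk c).s1 false) F
    (fun c => ((Pm : ℝ) + 1) * δ c) C hCn (by
      intro c C₂ hsuf D' hcol
      have hcC : c ∈ C := hsuf.subset List.mem_cons_self
      obtain ⟨hc1, hc2⟩ := (hCm c).1 hcC
      have hafter : ∀ c', Y.lev c < Y.lev c' → Y.lev c' ≤ T → c' ∈ C₂ := by
        intro c' h1 h2
        have h3 : c' ∈ C := (hCm c').2 ⟨by omega, h2⟩
        obtain ⟨C₁, hC₁⟩ := hsuf
        rw [← hC₁, List.mem_append] at h3
        rw [← hC₁, List.pairwise_append] at hCp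
        rcases h3 with h3 | h3
        · have := hCp.2.2 c' h3 c List.mem_cons_self
          omega
        · rcases List.mem_cons.1 h3 with h3 | h3
          · subst h3
            exact absurd h1 (lt_irrefl _)
          · exact h3
      have claim : ∀ i ∈ IX, |∑ z, ∑ z', (Bk c).P true z * ((Bk c).P false z' *
          φ i (Function.update D' c (mkp ((Bk c).enc z) ((Bk c).enc z')))) -
          ∑ z', (Bk c).P false z' * φ i (Function.update D' c (mkp ((Bk c).enc z')
            ((Bk c).enc z')))| ≤ δ c := by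
        intro i hi
        have hi1 : i.1 ≤ Pm := by
          rw [hIX, mem_product, mem_range] at hi
          omega
        obtain ⟨t, ht⟩ := orc_sel (Y := Y) D' (frn i.2) c
        set hh : ((Bk c).I → Bool) → Bool :=
          fun z => decide (Rt k i.1 M xs (orc Y ⟨Function.update D' c (mkp
            ((Bk c).enc z) ((Bk c).enc z)), frn i.2⟩)) with hhh
        have hφh : ∀ z, φ i (Function.update D' c (mkp ((Bk c).enc z)
            ((Bk c).enc z))) = br hh z := by
          intro z
          show (if _ then (1 : ℝ) else 0) = if hh z then (1 : ℝ) else 0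
          rw [hhh]
          simp only [decide_eq_true_eq]
        refine block_diff ((Bk c).s1 true) ((Bk c).s1 false) (H := br hh) (t := t) (hδ c hcC)
          (fun z z' => ?_) hφh ?_
        · rw [← hφh]
          show (if Rt k i.1 M xs (orc Y ⟨_, frn i.2⟩) then (1 : ℝ) else 0) =
            if Rt k i.1 M xs (orc Y ⟨_, frn i.2⟩) then (1 : ℝ) else 0
          rw [ht]
          cases t <;> rfl
        · have hFam : Fam Y (Y.lev c) T (fun z : (Bk c).I → Bool =>
              (⟨Function.update D' c (mkp ((Bk c).enc z) ((Bk c).enc z)), frn i.2⟩ : Dt Y.K)) :=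
            fam_block (Bk c) c rfl (frn i.2) fun c' _ h1 h2 => by
              rcases h1.eq_or_lt with h3 | h3
              · exact Or.inl h3.symm
              · exact Or.inr (hcol c' (hafter c' h3 h2))
          set G : ((Bk c).I → Bool) → Oracle := fun z =>
            orc Y (⟨Function.update D' c (mkp ((Bk c).enc z) ((Bk c).enc z)), frn i.2⟩ : Dt Y.K)
            with hG
          have hh2 : hh = fun z => (fun v : Fin (2 ^ (u + 11)) → Bool => decide (∀ j, v j ≠
              Tr (8 * n :: pw as) (leaves xs as (8 * n) (frn i.2)) j))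
              (fun j => QF i.1 (lf M T G) k true
                (pairBits (List.replicate i.1 true) (xs j)) z) := by
            funext z
            rw [hhh]
            simp only
            rw [decide_eq_decide]
            have h7 := rt_iff (T := T) (Λ := Λ) (M := M) hk
              (fun j : Fin (2 ^ (u + 11)) => bitsOf (u + 11) j)
              (fun j => (Nat.add_le_add_right (hlen i.1 j) _).trans (hΛP i.1 hi1)) hcut G z
            rw [h7]
            refine forall_congr' fun j => ?_
            rw [fo_orc]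
          have h5 := hfool c hcC (Fin (2 ^ (u + 11))) (by rw [Fintype.card_fin]) i.1
            (2 * i.1 + 1 + m₀) (lf M T G) (hΛP i.1 hi1)
            (fun y hy => dtr_lf hFam.smp M y (hp y (hy.trans (hΛP i.1 hi1))))
            (fun j => pairBits (List.replicate i.1 true) (xs j)) (hlen i.1) true
            (fun v : Fin (2 ^ (u + 11)) → Bool => decide (∀ j, v j ≠
              Tr (8 * n :: pw as) (leaves xs as (8 * n) (frn i.2)) j))
          rw [← hh2] at h5
          exact h5
      -- combine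
      set X : ((Y.K → Bool → List Bool → Bool) → ℝ) → ℝ := fun G =>
        ∑ z, ∑ z', (Bk c).P true z * ((Bk c).P false z' *
          G (Function.update D' c (mkp ((Bk c).enc z) ((Bk c).enc z')))) -
          ∑ z', (Bk c).P false z' * G (Function.update D' c (mkp ((Bk c).enc z')
            ((Bk c).enc z'))) with hX
      have hlin : X F = ∑ i ∈ IX, wt i * X (φ i) := by
        rw [hX, hF]
        simp only [mul_sub, mul_sum, sum_sub_distrib]
        congr 1
        · rw [sum_congr rfl fun z _ => sum_comm, sum_comm]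
          exact sum_congr rfl fun y _ => sum_congr rfl fun z _ => sum_congr rfl fun z' _ => by ring
        · rw [sum_comm]
          exact sum_congr rfl fun y _ => sum_congr rfl fun z' _ => by ring
      show |X F| ≤ _
      rw [hlin]
      refine (abs_sum_le_sum_abs _ _).trans ?_
      have h1 : ∀ i ∈ IX, |wt i * X (φ i)| ≤ wt i * δ c := fun i hi => by
        rw [abs_mul, abs_of_nonneg (hwt0 i)]
        exact mul_le_mul_of_nonneg_left (claim i hi) (hwt0 i)
      refine (sum_le_sum h1).trans ?_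
      rw [← sum_mul, hwtS]) D.bl
  -- the support
  have hEE : 1 ≤ EE (fun c => (Bk c).P true) (fun c => (Bk c).P false) (fun c => (Bk c).enc) C F
      D.bl := by
    refine EE_ge (G := fun c v => (Bk c).good true (v true) ∧ (Bk c).good false (v false))
      (fun c => (Bk c).nn true) (fun c => (Bk c).nn false) (fun c => (Bk c).s1 true)
      (fun c => (Bk c).s1 false)
      (fun c z z' hz hz' => ⟨(Bk c).sup true z hz, (Bk c).sup false z' hz'⟩) C D.bl
      fun B hB hB' => ?_
    rw [hF]
    simp only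
    rw [hIX, sum_product_right, ← hwt1]
    refine sum_le_sum fun y _ => ?_
    obtain ⟨P', hP', hR⟩ := hcon ⟨B, frn y⟩ (fun c t => by
      by_cases hcC : c ∈ C
      · cases t
        · exact (hB c hcC).2
        · exact (hB c hcC).1
      · show (Bk c).good t (B c t)
        rw [hB' c hcC]
        exact hD c t) (fun c hc' => hB' c fun h2 => by have := ((hCm c).1 h2).1; omega)
      (fun v hv => hfr3 y v hv)
    have h1 : ∀ P'' ∈ range (Pm + 1), 0 ≤ wt (P'', y) * φ (P'', y) B := fun P'' _ =>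
      mul_nonneg (hwt0 _) (by rw [hφ]; simp only; split_ifs <;> norm_num)
    refine le_trans (le_of_eq ?_) (single_le_sum h1 (mem_range.2 (Nat.lt_succ_of_le hP')))
    rw [hφ, hwt]
    simp only
    rw [if_pos hR, mul_one]
  -- the free strings
  have hEC : |EC (fun c => (Bk c).P false) (fun c => (Bk c).enc) C F D.bl| ≤
      ((Pm : ℝ) + 1) * (k * (2 ^ (Λ + 2) * (1 / 2) ^ (2 ^ (2 * u) + 1)) +
        3 * (1 / 2) ^ (2 ^ u)) := by
    refine EC_le (fun c => (Bk c).nn false) (fun c => (Bk c).s1 false) C D.bl fun B hB _ => ?_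
    have hφ0 : ∀ i ∈ IX, 0 ≤ wt i * φ i B := fun i _ =>
      mul_nonneg (hwt0 _) (by rw [hφ]; simp only; split_ifs <;> norm_num)
    rw [abs_of_nonneg (by rw [hF]; exact sum_nonneg hφ0), hF]
    simp only
    rw [hIX, sum_product]
    have hterm : ∀ P' ∈ range (Pm + 1), ∑ y : Idx (Fin (2 ^ (u + 11))) (8 * n :: pw as) → Bool,
        wt (P', y) * φ (P', y) B ≤ k * (2 ^ (Λ + 2) * (1 / 2) ^ (2 ^ (2 * u) + 1)) +
        3 * (1 / 2) ^ (2 ^ u) := by
      intro P' hP'
      have hP2 : P' ≤ Pm := Nat.lt_succ_iff.1 (mem_range.1 hP')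
      have hFam : Fam Y n T (fun y => (⟨B, frn y⟩ : Dt Y.K)) := by
        refine ⟨fun c' _ z z' => rfl, fun v hv z z' => ?_, fun c' h1 h2 => ?_, fun v => ?_⟩
        · show frn z v = frn z' v
          rw [hfr3 z v hv, hfr3 z' v hv]
        · left
          exact ⟨fun z z' => rfl, Or.inr fun z => hB c' ((hCm c').2 ⟨h1, h2⟩)⟩
        · by_cases hv : ∃ a, la xs as (8 * n) a = v
          · obtain ⟨a, rfl⟩ := hv
            exact Or.inr ⟨a, fun y => hfr1 y a⟩
          · exact Or.inl ⟨D.fr v, fun y => hfr2 y v hv⟩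
      have h1 := free_le (k := k) (P := P') (Λ := Λ) (ℓ := 2 * P' + 1 + m₀) (M := M) hn hu
        hsz hFam hfr1 (hlen P') (hΛP P' hP2) hcut hp
      refine le_trans (le_of_eq ?_) (h1.trans ?_)
      · rfl
      · have h2 : (2 : ℝ) ^ (2 * P' + 1 + m₀ + k * (2 * P' + 1) + 2) ≤ 2 ^ (Λ + 2) :=
          pow_le_pow_right₀ (by norm_num) (by have := hΛP P' hP2; omega)
        have h3 : (0 : ℝ) ≤ (1 / 2) ^ (2 ^ (2 * u) + 1) := by positivity
        have h4 := mul_le_mul_of_nonneg_left (mul_le_mul_of_nonneg_right h2 h3)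
          (Nat.cast_nonneg (α := ℝ) k)
        linarith
    refine (sum_le_sum hterm).trans (le_of_eq ?_)
    rw [sum_const, card_range, nsmul_eq_mul]
    push_cast
    ring
  -- the contradiction
  have h0 : (C.map fun c => ((Pm : ℝ) + 1) * δ c).sum = ((Pm : ℝ) + 1) * (C.map δ).sum :=
    List.sum_map_mul_left _ _ _
  rw [h0] at hhyb
  have h3 := abs_le.1 hhyb
  have h4 := abs_le.1 hEC
  linarith [h3.1, h3.2, h4.1, h4.2]

end Pool.Agent.H9x.SP
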