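import Pool.Agent.H9x.RU.World
import Pool.Agent.H9x.SP.Diff

/-!
# Oracles with blocks whose contents depend on truth values
-/

set_option autoImplicit false

namespace Pool.Agent.H9x.SP

open Pool.Agent.NPC Pool.Agent.H622R2 Pool.Agent.H620R2.Gauge Pool.Agent.H622R2.Exp
  Pool.Agent.H676

open Pool.Agent.H9x.RT (mkp)

/-- a system of codes: the truth value of a code depends on the strings up to the level of the code,
the strings of its block are longer -/
structure Sys where
  K : Type
  dK : DecidableEq K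
  lev : K → ℕ
  ac : K → Oracle → Prop
  loc : ∀ c (A A' : Oracle), (∀ z : List Bool, z.length ≤ lev c → A z = A' z) →
    (ac c A ↔ ac c A')
  adr : K → List Bool → List Bool
  ok : K → List Bool → Prop
  inj : ∀ c w c' w', ok c w → ok c' w' → adr c w = adr c' w' → c = c' ∧ w = w'
  lt : ∀ c w, lev c < (adr c w).length
  nf : ∀ c w u, adr c w ≠ true :: u
  b0 : List Bool → Bool

instance (Y : Sys) : DecidableEq Y.K := Y.dK

/-- the data: the contents of the blocks (for both truth values) and the free bits -/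
structure Dt (K : Type) : Type where
  bl : K → Bool → List Bool → Bool
  fr : List Bool → Bool

/-- positions of blocks -/
def J (Y : Sys) : Type := {p : Y.K × List Bool // Y.ok p.1 p.2}

/-- the string of a position -/
def cJ {Y : Sys} (p : J Y) : List Bool := Y.adr p.1.1 p.1.2

theorem cJ_inj {Y : Sys} : Function.Injective (cJ : J Y → List Bool) := by
  rintro ⟨⟨c, w⟩, h⟩ ⟨⟨c', w'⟩, h'⟩ he
  obtain ⟨h1, h2⟩ := Y.inj c w c' w' h h' he
  subst h1
  subst h2
  rfl

variable {Y : Sys}

/-- the other strings -/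
def base (Y : Sys) (D : Dt Y.K) : Oracle
  | true :: u => D.fr u
  | q => Y.b0 q

open Classical in
/-- the truth value -/
noncomputable def tv (Y : Sys) (c : Y.K) (A : Oracle) : Bool := decide (Y.ac c A)

theorem tv_congr {c : Y.K} {A A' : Oracle}
    (h : ∀ z : List Bool, z.length ≤ Y.lev c → A z = A' z) : tv Y c A = tv Y c A' := by
  unfold tv
  rw [decide_eq_decide]
  exact Y.loc c A A' h

theorem tv_true {c : Y.K} {A : Oracle} (h : Y.ac c A) : tv Y c A = true :=
  @decide_eq_true _ (Classical.propDecidable _) h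

theorem tv_false {c : Y.K} {A : Oracle} (h : ¬ Y.ac c A) : tv Y c A = false :=
  @decide_eq_false _ (Classical.propDecidable _) h

/-- the oracle -/
noncomputable def orc (Y : Sys) (D : Dt Y.K) : Oracle :=
  C1.Phi (cJ : J Y → List Bool) (fun p A => D.bl p.1.1 (tv Y p.1.1 A) p.1.2 = true) (base Y D)

theorem orc_on (D : Dt Y.K) {c : Y.K} {w : List Bool} (h : Y.ok c w) :
    orc Y D (Y.adr c w) = D.bl c (tv Y c (orc Y D)) w := by
  have h1 := C1.Phi_code (cJ : J Y → List Bool) cJ_inj
    (fun p A => D.bl p.1.1 (tv Y p.1.1 A) p.1.2 = true) (base Y D)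
    (fun p A A' hA => by
      have : tv Y p.1.1 A = tv Y p.1.1 A' :=
        tv_congr fun z hz => hA z (lt_of_le_of_lt hz (Y.lt _ _))
      rw [this]) ⟨(c, w), h⟩
  rw [Bool.eq_iff_iff]
  exact h1

theorem orc_off (D : Dt Y.K) {y : List Bool} (hy : ∀ c w, Y.ok c w → y ≠ Y.adr c w) :
    orc Y D y = base Y D y := C1.Phi_not _ _ _ _ fun p => hy p.1.1 p.1.2 p.2

theorem orc_free (D : Dt Y.K) (u : List Bool) : orc Y D (true :: u) = D.fr u := by
  rw [orc_off D fun c w _ h => Y.nf c w u h.symm]
  rfl

/-- **Locality.** -/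
theorem orc_loc {n : ℕ} {D D' : Dt Y.K} (hb : ∀ c, Y.lev c < n → D.bl c = D'.bl c)
    (hf : ∀ u : List Bool, u.length < n → D.fr u = D'.fr u) :
    ∀ (m : ℕ) (q : List Bool), q.length = m → m ≤ n → orc Y D q = orc Y D' q := by
  intro m
  induction m using Nat.strong_induction_on with
  | _ m ih =>
    intro q hq hqn
    by_cases hp : ∃ c w, Y.ok c w ∧ q = Y.adr c w
    · obtain ⟨c, w, hok, rfl⟩ := hp
      have hlt := Y.lt c w
      have h1 : tv Y c (orc Y D) = tv Y c (orc Y D') :=
        tv_congr fun z hz => ih z.length (by omega) z rfl (by omega)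
      rw [orc_on D hok, orc_on D' hok, h1, hb c (by omega)]
    · push Not at hp
      rw [orc_off D hp, orc_off D' hp]
      rcases q with _ | ⟨c₁, u⟩
      · rfl
      · cases c₁
        · rfl
        · show D.fr u = D'.fr u
          rw [List.length_cons] at hq
          exact hf u (by omega)

variable {I : Type}

/-- a family of data in which one block at the level `s` or the free bits vary, and no truth value
of a block at the higher levels matters -/
structure Fam (Y : Sys) (s T : ℕ) (F : (I → Bool) → Dt Y.K) : Prop where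
  low : ∀ c, Y.lev c < s → ∀ z z', (F z).bl c = (F z').bl c
  lowf : ∀ u : List Bool, u.length < s → ∀ z z', (F z).fr u = (F z').fr u
  blk : ∀ c, s ≤ Y.lev c → Y.lev c ≤ T →
    ((∀ z z', (F z).bl c = (F z').bl c) ∧ (Y.lev c = s ∨ ∀ z, (F z).bl c true = (F z).bl c false))
      ∨ ∀ w, (∃ v, ∀ z t, (F z).bl c t w = v) ∨ ∃ i, ∀ z t, (F z).bl c t w = z i
  fr : ∀ u, (∃ v, ∀ z, (F z).fr u = v) ∨ ∃ i, ∀ z, (F z).fr u = z i

open Pool.Agent.H9x.RU (Smp)

theorem Fam.smp {s T : ℕ} {F : (I → Bool) → Dt Y.K} (hF : Fam Y s T F) :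
    Smp T (fun z => orc Y (F z)) := by
  have hlow : ∀ q : List Bool, q.length ≤ s → ∀ z z', orc Y (F z) q = orc Y (F z') q :=
    fun q hq z z' => orc_loc (fun c hc' => hF.low c hc' z z')
      (fun s' hs' => hF.lowf s' hs' z z') _ q rfl hq
  set z₀ : I → Bool := fun _ => false
  intro q hqT
  by_cases hp : ∃ c w, Y.ok c w ∧ q = Y.adr c w
  · obtain ⟨c, w, hok, rfl⟩ := hp
    have hl := Y.lt c w
    have key2 : Y.lev c ≤ s → (∀ z z', (F z).bl c = (F z').bl c) →
        ∃ v, ∀ z, (fun z => orc Y (F z)) z (Y.adr c w) = v := by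
      intro hls hb
      refine ⟨orc Y (F z₀) (Y.adr c w), fun z => ?_⟩
      show orc Y (F z) (Y.adr c w) = orc Y (F z₀) (Y.adr c w)
      rw [orc_on _ hok, orc_on _ hok, hb z z₀]
      have h2 : tv Y c (orc Y (F z)) = tv Y c (orc Y (F z₀)) :=
        tv_congr fun q hq => hlow q (hq.trans hls) z z₀
      rw [h2]
    by_cases hls : Y.lev c < s
    · exact Or.inl (key2 hls.le fun z z' => hF.low _ hls z z')
    · rcases hF.blk c (not_lt.1 hls) (by omega) with ⟨h1, h2⟩ | h1
      · left
        rcases h2 with h2 | h2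
        · exact key2 h2.le h1
        · refine ⟨(F z₀).bl c true w, fun z => ?_⟩
          show orc Y (F z) (Y.adr c w) = _
          rw [orc_on _ hok, h1 z z₀]
          cases tv Y c (orc Y (F z))
          · rw [← h2 z₀]
          · rfl
      · rcases h1 w with ⟨v, hv⟩ | ⟨i, hi⟩
        · exact Or.inl ⟨v, fun z => by
            show orc Y (F z) (Y.adr c w) = _
            rw [orc_on _ hok, hv]⟩
        · exact Or.inr ⟨i, fun z => by
            show orc Y (F z) (Y.adr c w) = _
            rw [orc_on _ hok, hi]⟩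
  · push Not at hp
    have hoff : ∀ z, (fun z => orc Y (F z)) z q = base Y (F z) q := fun z => orc_off _ hp
    rcases q with _ | ⟨c₁, u⟩
    · exact Or.inl ⟨Y.b0 [], fun z => by rw [hoff]; rfl⟩
    · cases c₁
      · exact Or.inl ⟨Y.b0 (false :: u), fun z => by rw [hoff]; rfl⟩
      · have hfr : ∀ z, (fun z => orc Y (F z)) z (true :: u) = (F z).fr u := fun z => orc_free _ _
        rcases hF.fr u with ⟨v, hv⟩ | ⟨i, hi⟩
        · exact Or.inl ⟨v, fun z => by rw [hfr, hv]⟩
        · exact Or.inr ⟨i, fun z => by rw [hfr, hi]⟩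

/-- **Only one of the two contents matters.** -/
theorem orc_sel (B : Y.K → Bool → List Bool → Bool)
    (fr : List Bool → Bool) (c : Y.K) :
    ∃ t : Bool, ∀ u v : List Bool → Bool,
      orc Y ⟨Function.update B c (mkp u v), fr⟩ =
        orc Y ⟨Function.update B c (mkp (mkp u v t) (mkp u v t)), fr⟩ := by
  refine ⟨tv Y c (orc Y ⟨B, fr⟩), fun u v => ?_⟩
  set t := tv Y c (orc Y ⟨B, fr⟩) with ht
  have htv : ∀ v' : Bool → List Bool → Bool, tv Y c (orc Y ⟨Function.update B c v', fr⟩) = t := by
    intro v'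
    rw [ht]
    refine tv_congr fun q hq => orc_loc (n := Y.lev c)
      (D := ⟨Function.update B c v', fr⟩) (D' := ⟨B, fr⟩) (fun c' hc => ?_)
      (fun s _ => rfl) _ q rfl hq
    show Function.update B c v' c' = B c'
    rw [Function.update_of_ne]
    rintro rfl
    exact absurd hc (lt_irrefl _)
  funext q
  generalize hm : q.length = m
  induction m using Nat.strong_induction_on generalizing q with
  | _ m ih =>
    by_cases hp : ∃ c w, Y.ok c w ∧ q = Y.adr c w
    · obtain ⟨c', w, hok, rfl⟩ := hp
      rw [orc_on _ hok, orc_on _ hok]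
      show Function.update B c (mkp u v) c' (tv Y c' _) w = Function.update B c
        (mkp (mkp u v t) (mkp u v t)) c' (tv Y c' _) w
      by_cases hc : c' = c
      · subst hc
        rw [Function.update_self, Function.update_self, htv, htv]
        have : mkp (mkp u v t) (mkp u v t) t = mkp u v t := by
          unfold mkp
          split_ifs <;> rfl
        rw [this]
      · rw [Function.update_of_ne hc, Function.update_of_ne hc]
        have hlt := Y.lt c' w
        rw [tv_congr fun z hz => ih z.length (by omega) z rfl]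
    · push Not at hp
      rw [orc_off _ hp, orc_off _ hp]
      rcases q with _ | ⟨c₁, u'⟩
      · rfl
      · cases c₁ <;> rfl

end Pool.Agent.H9x.SP
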