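import Pool.Agent.H9x.RU.Mach

/-!
# Two distributions on trees of gates that few alternations do not distinguish

The random restrictions of Håstad, Rossman, Servedio and Tan leave, at the root of a tree of
`k + 1` levels, many undetermined children. If all of them are set to false the value of the tree is
true, if exactly one of them, chosen at random, is set to true the value is false; the two resulting
distributions of the leaves are not distinguished, except with an exponentially small advantage, by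
few shallow decision trees preceded by `k` alternating quantifiers.
-/

set_option autoImplicit false
set_option linter.unusedSectionVars false

namespace Pool.Agent.H9x.SP

open Finset H568R2 Pool.Agent.H676 Pool.Agent.H620R2.Gauge Pool.Agent.NPC Pool.Agent.H591R3.PHG

open Pool.Agent.H591R3.PHG.FinalAux (DTv)
open Pool.Agent.H9x.RU (dtr_of_dtv)

/-- the point with a single true coordinate -/
def one {I : Type} [DecidableEq I] (i : I) : I → Bool := fun j => decide (j = i)

open Classical in
/-- the last step of the process -/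
noncomputable def Fn (t : ℝ) {c : ℕ} (b : Bool) (s : Unit × Fin c → Option Bool)
    (Φ : (Unit × Fin c → Bool) → ℝ) : ℝ :=
  if Good t (1 / 256) 0 (fun i => s ((), i)) then
    (if b then Φ (fun _ => false) else
      ((live (fun i => s ((), i))).card : ℝ)⁻¹ *
        ∑ i ∈ live (fun i => s ((), i)), Φ (one ((), i)))
  else 0

/-- the averages over the process -/
noncomputable def Av (t ξ : ℝ) (smin : ℕ) (b : Bool) : (cs : List ℕ) →
    (Idx Unit cs → Option Bool) → ((Idx Unit cs → Bool) → ℝ) → ℝ
  | [], _, _ => 0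
  | [c], s, Φ => Fn t b (c := c) s Φ
  | c :: c' :: cs, s, Φ => ∑ ρ : Idx Unit (c' :: cs) → St c, wt t t ξ smin s ρ *
      Av t ξ smin b (c' :: cs) (fun h => (ρ h).1) (fun z => Φ (XX s ρ z))

theorem Av_one (t ξ : ℝ) (smin : ℕ) (b : Bool) (c : ℕ) (s : Idx Unit [c] → Option Bool)
    (Φ : (Idx Unit [c] → Bool) → ℝ) : Av t ξ smin b [c] s Φ = Fn t b (c := c) s Φ := rfl

theorem Av_two (t ξ : ℝ) (smin : ℕ) (b : Bool) (c : ℕ) (cs : List ℕ) (hcs : cs ≠ [])
    (s : Idx Unit (c :: cs) → Option Bool) (Φ : (Idx Unit (c :: cs) → Bool) → ℝ) :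
    Av t ξ smin b (c :: cs) s Φ = ∑ ρ : Idx Unit cs → St c, wt (G := Idx Unit cs) t t ξ smin s ρ *
      Av t ξ smin b cs (fun h => (ρ h).1) (fun z => Φ (XX (G := Idx Unit cs) s ρ z)) := by
  cases cs with
  | nil => exact absurd rfl hcs
  | cons c' cs => rfl

theorem live_pos {t cc : ℝ} {c : ℕ} {D : ℕ} {σ : Fin c → Option Bool} (hcc : 0 < cc)
    (h : Good t cc D σ) : 0 < (live σ).card := by
  rcases Nat.eq_zero_or_pos (live σ).card with h0 | h0
  · have := h.2.2.2
    rw [h0] at this
    simp at this
    linarith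
  · exact h0

theorem Fn_mono {t : ℝ} {c : ℕ} (b : Bool) (s : Unit × Fin c → Option Bool)
    {Φ Ψ : (Unit × Fin c → Bool) → ℝ} (h : ∀ z, Φ z ≤ Ψ z) : Fn t b s Φ ≤ Fn t b s Ψ := by
  unfold Fn
  split_ifs
  · exact h _
  · exact mul_le_mul_of_nonneg_left (sum_le_sum fun i _ => h _) (by positivity)
  · exact le_rfl

theorem Fn_one {t : ℝ} {c : ℕ} (b : Bool) (s : Unit × Fin c → Option Bool) :
    Fn t b s (fun _ => 1) = Fn t true s (fun _ => 1) := by
  unfold Fn
  by_cases hg : Good t (1 / 256) 0 (fun i => s ((), i))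
  · rw [if_pos hg, if_pos hg]
    cases b
    · have hpos := live_pos (by norm_num) hg
      simp only [Bool.false_eq_true, if_false, sum_const, nsmul_eq_mul, mul_one, if_true]
      have : ((live (fun i => s ((), i))).card : ℝ) ≠ 0 := by positivity
      field_simp
    · rfl
  · rw [if_neg hg, if_neg hg]

/-- the parameters of the process are admissible -/
structure Adm (t ξ : ℝ) (smin : ℕ) : Prop where
  t0 : 0 < t
  t1 : t < 1
  x0 : 0 ≤ ξ
  x1 : ξ ≤ 1
  s1 : 1 ≤ smin
  c : (1 - ξ) * (1 - t) ^ smin / t + ξ * (1 - t) ^ smin ≤ 1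

theorem Adm.wt {t ξ : ℝ} {smin c : ℕ} (h : Adm t ξ smin) {G : Type} [Fintype G] [DecidableEq G]
    (s : G × Fin c → Option Bool) (ρ : G → St c) : 0 ≤ wt t t ξ smin s ρ :=
  wt_nonneg h.t0 h.t1 h.t0 h.x0 h.x1 h.s1 h.c s ρ

theorem Av_mono {t ξ : ℝ} {smin : ℕ} (hA : Adm t ξ smin) (b : Bool) : ∀ (cs : List ℕ)
    (s : Idx Unit cs → Option Bool) {Φ Ψ : (Idx Unit cs → Bool) → ℝ}, (∀ z, Φ z ≤ Ψ z) →
    Av t ξ smin b cs s Φ ≤ Av t ξ smin b cs s Ψ := by
  intro cs
  induction cs with
  | nil => intro s Φ Ψ h; exact le_refl _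
  | cons c cs ih =>
    intro s Φ Ψ h
    cases cs with
    | nil =>
      rw [Av_one, Av_one]
      exact Fn_mono (c := c) b s h
    | cons c' cs =>
      rw [Av_two _ _ _ _ _ _ (by simp), Av_two _ _ _ _ _ _ (by simp)]
      exact sum_le_sum fun ρ _ => mul_le_mul_of_nonneg_left (ih _ fun z => h _) (hA.wt _ _)

theorem Av_zero {t ξ : ℝ} {smin : ℕ} (b : Bool) : ∀ (cs : List ℕ)
    (s : Idx Unit cs → Option Bool), Av t ξ smin b cs s (fun _ => 0) = 0 := by
  intro cs
  induction cs with
  | nil => intro s; rfl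
  | cons c cs ih =>
    intro s
    cases cs with
    | nil =>
      rw [Av_one]
      unfold Fn
      simp
    | cons c' cs =>
      rw [Av_two _ _ _ _ _ _ (by simp)]
      exact sum_eq_zero fun ρ _ => by rw [ih, mul_zero]

/-- the total mass does not depend on the value -/
theorem Av_mass {t ξ : ℝ} {smin : ℕ} (b : Bool) : ∀ (cs : List ℕ)
    (s : Idx Unit cs → Option Bool), Av t ξ smin b cs s (fun _ => 1) =
      Av t ξ smin true cs s (fun _ => 1) := by
  intro cs
  induction cs with
  | nil => intro s; rfl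
  | cons c cs ih =>
    intro s
    cases cs with
    | nil =>
      rw [Av_one, Av_one]
      exact Fn_one (c := c) b s
    | cons c' cs =>
      rw [Av_two _ _ _ _ _ _ (by simp), Av_two _ _ _ _ _ _ (by simp)]
      exact sum_congr rfl fun ρ _ => by rw [ih]

theorem Av_le {t ξ : ℝ} {smin : ℕ} (hA : Adm t ξ smin) (b : Bool) : ∀ (cs : List ℕ)
    (s : Idx Unit cs → Option Bool), Av t ξ smin b cs s (fun _ => 1) ≤ 1 := by
  intro cs
  induction cs with
  | nil => intro s; exact zero_le_one
  | cons c cs ih =>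
    intro s
    cases cs with
    | nil =>
      rw [Av_one]
      refine (le_of_eq (Fn_one (c := c) b s)).trans ?_
      unfold Fn
      simp only [if_true]
      split_ifs <;> norm_num
    | cons c' cs =>
      rw [Av_two _ _ _ _ _ _ (by simp)]
      calc ∑ ρ : Idx Unit (c' :: cs) → St c, wt (G := Idx Unit (c' :: cs)) t t ξ smin s ρ *
            Av t ξ smin b (c' :: cs) (fun h => (ρ h).1) (fun _ => 1)
          ≤ ∑ ρ : Idx Unit (c' :: cs) → St c, wt (G := Idx Unit (c' :: cs)) t t ξ smin s ρ * 1 :=
            sum_le_sum fun ρ _ => mul_le_mul_of_nonneg_left (ih _) (hA.wt _ _)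
        _ = 1 := by
          simp only [mul_one]
          exact wt_sum hA.t0 hA.t1 hA.t0 hA.s1 s

theorem Fn_lin {t : ℝ} {c : ℕ} (b : Bool) (s : Unit × Fin c → Option Bool) :
    ∃ P : (Unit × Fin c → Bool) → ℝ, ∀ Φ, Fn t b s Φ = ∑ z, P z * Φ z := by
  classical
  by_cases hg : Good t (1 / 256) 0 (fun i : Fin c => s ((), i))
  · cases b
    · refine ⟨fun z => ((live (fun i : Fin c => s ((), i))).card : ℝ)⁻¹ *
        ∑ i ∈ live (fun i : Fin c => s ((), i)), if z = (one ((), i) : Unit × Fin c → Bool)
          then 1 else 0, fun Φ => ?_⟩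
      unfold Fn
      rw [if_pos hg]
      simp only [Bool.false_eq_true, if_false]
      calc ((live (fun i : Fin c => s ((), i))).card : ℝ)⁻¹ *
            ∑ i ∈ live (fun i : Fin c => s ((), i)), Φ (one ((), i))
          = ((live (fun i : Fin c => s ((), i))).card : ℝ)⁻¹ *
            ∑ i ∈ live (fun i : Fin c => s ((), i)), ∑ z : Unit × Fin c → Bool,
              (if z = (one ((), i) : Unit × Fin c → Bool) then 1 else 0) * Φ z := by
            congr 1
            refine sum_congr rfl fun i _ => ?_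
            simp
        _ = _ := by
            rw [sum_comm, mul_sum]
            refine sum_congr rfl fun z _ => ?_
            rw [← sum_mul]
            ring
    · refine ⟨fun z => if z = (fun _ => false) then 1 else 0, fun Φ => ?_⟩
      unfold Fn
      rw [if_pos hg]
      simp
  · refine ⟨fun _ => 0, fun Φ => ?_⟩
    unfold Fn
    rw [if_neg hg]
    simp

/-- change of variables in a double sum -/
theorem sum_chg {R Z Y : Type} [Fintype R] [Fintype Z] [Fintype Y] [DecidableEq Y] (w : R → ℝ)
    (P : R → Z → ℝ) (X : R → Z → Y) (Φ : Y → ℝ) :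
    ∑ ρ, w ρ * ∑ z, P ρ z * Φ (X ρ z) =
      ∑ y, (∑ ρ, w ρ * ∑ z, P ρ z * (if X ρ z = y then 1 else 0)) * Φ y := by
  have h1 : ∀ ρ, ∑ z, P ρ z * Φ (X ρ z) =
      ∑ y, (∑ z, P ρ z * (if X ρ z = y then 1 else 0)) * Φ y := by
    intro ρ
    calc ∑ z, P ρ z * Φ (X ρ z) = ∑ z, ∑ y, P ρ z * (if X ρ z = y then 1 else 0) * Φ y := by
          refine sum_congr rfl fun z _ => ?_
          simp
      _ = _ := by
          rw [sum_comm]
          exact sum_congr rfl fun y _ => by rw [sum_mul]
  calc ∑ ρ, w ρ * ∑ z, P ρ z * Φ (X ρ z)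
      = ∑ ρ, ∑ y, w ρ * (∑ z, P ρ z * (if X ρ z = y then 1 else 0)) * Φ y := by
        refine sum_congr rfl fun ρ _ => ?_
        rw [h1, mul_sum]
        exact sum_congr rfl fun y _ => by ring
    _ = _ := by
        rw [sum_comm]
        exact sum_congr rfl fun y _ => by rw [sum_mul]

/-- the averages are given by weights -/
theorem Av_lin {t ξ : ℝ} {smin : ℕ} (b : Bool) : ∀ (cs : List ℕ)
    (s : Idx Unit cs → Option Bool), ∃ P : (Idx Unit cs → Bool) → ℝ, ∀ Φ,
      Av t ξ smin b cs s Φ = ∑ z, P z * Φ z := by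
  intro cs
  induction cs with
  | nil => intro s; exact ⟨fun _ => 0, fun Φ => by simp [Av]⟩
  | cons c cs ih =>
    intro s
    cases cs with
    | nil =>
      obtain ⟨P, hP⟩ := Fn_lin (t := t) (c := c) b s
      exact ⟨P, hP⟩
    | cons c' cs =>
      choose P hP using fun ρ : Idx Unit (c' :: cs) → St c => ih (fun h => (ρ h).1)
      have key : ∀ Φ : (Idx Unit (c :: c' :: cs) → Bool) → ℝ,
          Av t ξ smin b (c :: c' :: cs) s Φ = _ := fun Φ =>
        ((Av_two t ξ smin b c (c' :: cs) (by simp) s Φ).trans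
          (sum_congr rfl fun ρ _ => by rw [hP])).trans
          (sum_chg (fun ρ => wt (G := Idx Unit (c' :: cs)) t t ξ smin s ρ) P
            (fun ρ z => XX (G := Idx Unit (c' :: cs)) s ρ z) Φ)
      exact ⟨_, key⟩

theorem getD_none_true (x : Option Bool) (h : x ≠ some true) : x.getD false = false := by
  cases x with
  | none => rfl
  | some b => cases b <;> simp_all

/-- the support of the averages -/
theorem Fn_supp {t : ℝ} {c : ℕ} (b : Bool) (s : Unit × Fin c → Option Bool)
    {Φ : (Unit × Fin c → Bool) → ℝ}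
    (h : ∀ z, decide (∀ i : Fin c, val s z ((), i) = false) = b → Φ z = 0) : Fn t b s Φ = 0 := by
  unfold Fn
  split_ifs with hg hb
  · apply h
    rw [hb, decide_eq_true_iff]
    intro i
    exact getD_none_true _ (hg.1 i)
  · rw [sum_eq_zero, mul_zero]
    intro i hi
    apply h
    have hb' : b = false := by simpa using hb
    rw [hb', decide_eq_false_iff_not]
    intro hall
    have h1 := hall i
    unfold H591R3.PHG.val at h1
    have h2 : s ((), i) = none := by
      unfold live at hi
      rw [mem_filter] at hi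
      exact hi.2
    rw [h2] at h1
    simp [one] at h1
  · rfl

theorem Av_supp {t ξ : ℝ} {smin : ℕ} (b : Bool) : ∀ (cs : List ℕ)
    (s : Idx Unit cs → Option Bool) {Φ : (Idx Unit cs → Bool) → ℝ},
    (∀ z, Tr cs (val s z) () = b → Φ z = 0) → Av t ξ smin b cs s Φ = 0 := by
  intro cs
  induction cs with
  | nil => intro s Φ h; rfl
  | cons c cs ih =>
    intro s Φ h
    cases cs with
    | nil =>
      rw [Av_one]
      refine Fn_supp (c := c) b s fun z hz => h z ?_
      rw [← hz]
      rfl
    | cons c' cs =>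
      rw [Av_two _ _ _ _ _ _ (by simp)]
      refine sum_eq_zero fun ρ _ => ?_
      by_cases hρ : wt (G := Idx Unit (c' :: cs)) t t ξ smin s ρ = 0
      · rw [hρ, zero_mul]
      · rw [ih, mul_zero]
        intro z hz
        apply h
        rw [← hz]
        show Tr (c' :: cs) (fun g => decide (∀ i : Fin c,
          val (I := Idx Unit (c' :: cs) × Fin c) s (XX s ρ z) (g, i) = false)) () = _
        congr 1
        funext g'
        exact val_stage (G := Idx Unit (c' :: cs)) s ρ hρ z g'

end Pool.Agent.H9x.SP
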