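import Pool.Agent.H9x.SP.Stg

/-!
# The world in which `BQP = PSPACE = Σ_{k+1}` and `Σ_{k+1}` is exponentially harder than `Σ_k`
-/

set_option autoImplicit false

namespace Pool.Agent.H9x.SP

open Finset Pool.Agent.NPC Pool.Agent.H622R2 Pool.Agent.H620R2.Gauge Pool.Agent.H622R2.Exp
  Pool.Agent.TH678.ETH Pool.Agent.TH678.SETH Pool.Agent.TH678.RS Pool.Agent.H9x.Q Filter
  Pool.Agent.H591R3.PHG

open Pool.Agent.H9x.V1 (Ac ac_congr poly_rep poly_cS finite_ext)
open Pool.Agent.H9x.RT (ll lev HZ HZ_iff FoC FoC_enc Yes No FoA isBQP_of_fo cpy ll_eval UU mem_UU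
  exists_list)
open Pool.Agent.H9x.RU (fo Kr LQ sizes)

/-- the addresses of the blocks -/
def adA (k : ℕ) (S : ℕ → Polynomial ℕ) (c : ℕ × List Bool) (w : List Bool) : List Bool :=
  if c.1 % 2 = 0 then false :: true :: cS c.1 (lev S c) (c.2 ++ w)
  else false :: false :: false :: enc (List.replicate (k + 1) (64 * lev S c)) (8 * lev S c)
    (cS c.1 (lev S c) (pairBits c.2 w))

theorem adA_even {k : ℕ} {S : ℕ → Polynomial ℕ} {c : ℕ × List Bool} (h : c.1 % 2 = 0)
    (w : List Bool) : adA k S c w = false :: true :: cS c.1 (lev S c) (c.2 ++ w) := if_pos h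

theorem adA_odd {k : ℕ} {S : ℕ → Polynomial ℕ} {c : ℕ × List Bool} (h : ¬ c.1 % 2 = 0)
    (w : List Bool) : adA k S c w = false :: false :: false ::
      enc (List.replicate (k + 1) (64 * lev S c)) (8 * lev S c)
        (cS c.1 (lev S c) (pairBits c.2 w)) := if_neg h

theorem enc_inj2 {as as' : List ℕ} {w w' : ℕ} {z z' : List Bool} (hl : as.length = as'.length)
    (h : enc as w z = enc as' w' z') : as = as' ∧ w = w' ∧ z = z' := by
  have h1 := LangTrAux.parse_enc as w z
  have h2 := LangTrAux.parse_enc as' w' z'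
  rw [← hl, ← h, h1] at h2
  simp only [Prod.mk.injEq, List.reverse_inj] at h2
  obtain ⟨h3, h4⟩ := h2
  have h5 := congrArg unpair h4
  rw [unpair_pairBits, unpair_pairBits] at h5
  simp only [Prod.mk.injEq] at h5
  refine ⟨h3, ?_, h5.2⟩
  have := congrArg List.length h5.1
  simpa using this

open Classical in
/-- the system of codes -/
noncomputable def sysA (k : ℕ) (g : ℕ → SAlg × Polynomial ℕ) (S : ℕ → Polynomial ℕ) : Sys where
  K := ℕ × List Bool
  dK := inferInstance
  lev := lev S
  ac := fun c A => Ac g S c.1 c.2 A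
  loc := fun c A A' h => ac_congr h
  adr := adA k S
  ok := fun c w => c.1 % 2 = 0 → w.length = ll (lev S c) + 1
  inj := by
    rintro ⟨e, x⟩ w ⟨e', x'⟩ w' hw hw' h
    by_cases he : e % 2 = 0
    · by_cases he' : e' % 2 = 0
      · rw [adA_even (c := (e, x)) he, adA_even (c := (e', x')) he'] at h
        simp only [List.cons.injEq, true_and] at h
        obtain ⟨h1, h2, h3⟩ := cS_inj h
        subst h1
        have h4 : w.length = w'.length := by rw [hw he, hw' he', h2]
        obtain ⟨h5, h6⟩ := List.append_inj' h3 h4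
        subst h5
        exact ⟨rfl, h6⟩
      · rw [adA_even (c := (e, x)) he, adA_odd (c := (e', x')) he'] at h
        simp at h
    · by_cases he' : e' % 2 = 0
      · rw [adA_odd (c := (e, x)) he, adA_even (c := (e', x')) he'] at h
        simp at h
      · rw [adA_odd (c := (e, x)) he, adA_odd (c := (e', x')) he'] at h
        simp only [List.cons.injEq, true_and] at h
        obtain ⟨_, _, h3⟩ := enc_inj2 (by simp) h
        obtain ⟨h4, _, h6⟩ := cS_inj h3
        have h7 := congrArg unpair h6
        rw [unpair_pairBits, unpair_pairBits] at h7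
        simp only [Prod.mk.injEq] at h7
        rw [h4, h7.1, h7.2]
        exact ⟨rfl, rfl⟩
  lt := by
    intro c w
    by_cases he : c.1 % 2 = 0
    · rw [adA_even he, List.length_cons, List.length_cons, length_cS]
      omega
    · rw [adA_odd he, List.length_cons, List.length_cons, List.length_cons,
        enc_len, length_cS]
      omega
  nf := by
    intro c w u
    by_cases he : c.1 % 2 = 0
    · rw [adA_even he]
      simp
    · rw [adA_odd he]
      simp
  b0 := fun q => match q with
    | false :: false :: v => decide (HZ v)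
    | _ => false

variable {k : ℕ} {S : ℕ → Polynomial ℕ} {g : ℕ → SAlg × Polynomial ℕ}

/-- **Truth of the codes.** -/
theorem code_true (hc : Kr g S) (A : Oracle) {L : Set (List Bool)}
    {M : SAlg} {p : Polynomial ℕ} {e : ℕ} (he : g e = (M, p))
    (hM : ∀ x, (∀ s, M.Reach A x s → s.length ≤ p.eval x.length) ∧
      ∃ s z, M.Reach A x s ∧ M.act (pairBits x s) = true :: z ∧ (x ∈ L ↔ z = [true]))
    (x : List Bool) : Ac g S e x A ↔ x ∈ L := by
  have hloc := hc.loc e
  unfold Ac
  rw [he] at hloc ⊢
  obtain ⟨hM1, s, z, hs, hz, hLz⟩ := hM x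
  have hcong : ∀ s, M.Reach (CC.cut ((S e).eval x.length) A) x s ↔ M.Reach A x s := by
    refine CC.reach_congr (fun s => s.length ≤ p.eval x.length) hM1 ?_
    intro s q h1 h2
    have h3 := hloc x s h1
    rw [h2, List.length_cons] at h3
    unfold CC.cut
    rw [if_pos (by omega)]
  constructor
  · rintro ⟨t, ht, ht2⟩
    have hst := CC.reach_unique hs ((hcong t).1 ht) ⟨_, hz⟩ ⟨_, ht2⟩
    rw [hst, ht2] at hz
    simp only [List.cons.injEq, true_and] at hz
    exact hLz.2 hz.symm
  · intro hx
    refine ⟨s, (hcong s).2 hs, ?_⟩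
    rw [hz, hLz.1 hx]

theorem tv_iff {Y : Sys} {c : Y.K} {A : Oracle} : tv Y c A = true ↔ Y.ac c A :=
  @decide_eq_true_iff _ (Classical.propDecidable _)

/-- the prefix of the strings about the zero string -/
theorem base_HZ (D : Dt (sysA k g S).K) {l m : ℕ} (hl : 1 ≤ l) (u : Fin (m * l) → Bool) :
    orc (sysA k g S) D ((false :: false :: (List.replicate l true ++ [false])) ++ List.ofFn u) =
      true ↔ ∃ j, cpy u j = fun _ => false := by
  obtain ⟨l, rfl⟩ : ∃ l', l = l' + 1 := ⟨l - 1, by omega⟩
  have h1 : (false :: false :: (List.replicate (l + 1) true ++ [false])) ++ List.ofFn u =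
      false :: false :: (List.replicate (l + 1) true ++ false :: List.ofFn u) := by simp
  rw [h1, orc_off D (fun c w _ h => by
    by_cases he : c.1 % 2 = 0
    · rw [show (sysA k g S).adr c w = adA k S c w from rfl, adA_even he] at h
      simp at h
    · rw [show (sysA k g S).adr c w = adA k S c w from rfl, adA_odd he,
        List.replicate_succ] at h
      simp at h)]
  show @decide (HZ _) (Classical.propDecidable _) = true ↔ _
  exact (@decide_eq_true_iff _ (Classical.propDecidable _)).trans (HZ_iff hl u)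

/-- the properties of the blocks -/
structure BkA (k : ℕ) (g : ℕ → SAlg × Polynomial ℕ) (S : ℕ → Polynomial ℕ)
    (Bk : (sysA k g S).K → Blk) : Prop where
  yes : ∀ c : ℕ × List Bool, c.1 % 2 = 0 → ∀ V, (Bk c).good true V → Yes (lev S c) V
  no : ∀ c : ℕ × List Bool, c.1 % 2 = 0 → ∀ V, (Bk c).good false V → No (lev S c) V
  sip : ∀ c : ℕ × List Bool, ¬ c.1 % 2 = 0 → ∀ t V, (Bk c).good t V → sval (lev S c) k V = !t

/-- **Polynomial space in quantum polynomial time.** -/
theorem bqp_of_pspace
    (hg' : Function.Surjective fun e => g (2 * e)) (hc : Kr g S)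
    {Bk : (sysA k g S).K → Blk} (hB : BkA k g S Bk) {D : Dt (sysA k g S).K} (hD : Good Bk D.bl)
    {L : Set (List Bool)} (hL : IsPSPACE (orc (sysA k g S) D) L) :
    IsBQP (orc (sysA k g S) D) L := by
  obtain ⟨M, p, hM⟩ := hL
  obtain ⟨e₀, he₀⟩ := hg' (M, p)
  obtain ⟨e, he, hee⟩ : ∃ e, e % 2 = 0 ∧ g e = (M, p) := ⟨2 * e₀, by omega, he₀⟩
  have hct := code_true hc _ hee hM
  have hlen : UPoly (fun u : List Bool => u.length) := UPoly.length Poly.id
  have hSe : UPoly (fun u : List Bool => (S e).eval u.length) := hlen.eval (S e)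
  set l : Polynomial ℕ := Polynomial.C 8 * S e + Polynomial.C 40 with hl
  have hll : ∀ n, l.eval n = ll ((S e).eval n) := fun n => ll_eval _ _
  refine isBQP_of_fo (fun u => false :: true :: cS e ((S e).eval u.length) [])
    (fun u => false :: false :: (List.replicate (l.eval u.length) true ++ [false])) l
    ?_ ?_ (fun u v huv => by simp only [huv]) (fun u v huv => by simp only [huv])
    (fun n => by rw [hll]; unfold ll; omega) (fun x k u => ?_) (fun x => ?_)
  · exact Poly.cons (NPC.Poly.const _) (Poly.cons (NPC.Poly.const _)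
      (poly_cS e hSe (NPC.Poly.const [])))
  · exact Poly.cons (NPC.Poly.const _) (Poly.cons (NPC.Poly.const _)
      (Poly.append (poly_rep (hlen.eval l)) (NPC.Poly.const [false])))
  · exact base_HZ D (by rw [hll]; unfold ll; omega) u
  · -- the forrelation of the block
    have hval : ∀ (c : Bool) (v : Fin (l.eval x.length) → Bool), orc (sysA k g S) D
        ((false :: true :: cS e ((S e).eval x.length) []) ++ x ++ (c :: List.ofFn v)) =
        D.bl (e, x) (tv (sysA k g S) (e, x) (orc (sysA k g S) D)) (c :: List.ofFn v) := by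
      intro c v
      have hw : (c :: List.ofFn v).length = ll ((S e).eval x.length) + 1 := by
        rw [List.length_cons, List.length_ofFn, hll]
      have h1 : (false :: true :: cS e ((S e).eval x.length) []) ++ x ++
          (c :: List.ofFn v) = (sysA k g S).adr (e, x) (c :: List.ofFn v) := by
        show _ = adA k S (e, x) (c :: List.ofFn v)
        rw [adA_even he]
        show _ = false :: true :: cS e ((S e).eval x.length) (x ++ (c :: List.ofFn v))
        simp [cS, pr]
      rw [h1, orc_on D (show (sysA k g S).ok (e, x) (c :: List.ofFn v) from fun _ => hw)]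
    have hfo : FoA (orc (sysA k g S) D) ((false :: true :: cS e ((S e).eval x.length) []) ++ x)
        (l.eval x.length) = FoC (D.bl (e, x) (tv (sysA k g S) (e, x) (orc (sysA k g S) D)))
        (l.eval x.length) := by
      unfold FoA FoC
      simp only [hval]
    constructor
    · intro hx
      have h2 : tv (sysA k g S) (e, x) (orc (sysA k g S) D) = true := tv_true ((hct x).2 hx)
      rw [hfo, h2, hll]
      exact hB.yes (e, x) he _ (hD (e, x) true)
    · intro hx
      have h2 : tv (sysA k g S) (e, x) (orc (sysA k g S) D) = false :=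
        tv_false fun h3 => hx ((hct x).1 h3)
      rw [hfo, h2, hll]
      exact hB.no (e, x) he _ (hD (e, x) false)

/-- **Polynomial space in the level `k + 1`.** -/
theorem sig_of_pspace (hg : ∀ e, g (2 * e) = g (2 * e + 1))
    (hg' : Function.Surjective fun e => g (2 * e)) (hc : Kr g S)
    {Bk : (sysA k g S).K → Blk} (hB : BkA k g S Bk) {D : Dt (sysA k g S).K} (hD : Good Bk D.bl)
    {L : Set (List Bool)} (hL : IsPSPACE (orc (sysA k g S) D) L) :
    IsSig (orc (sysA k g S) D) (k + 1) L := by
  obtain ⟨M, p, hM⟩ := hL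
  obtain ⟨e₀, he₀⟩ := hg' (M, p)
  obtain ⟨e, he, hee⟩ : ∃ e, ¬ e % 2 = 0 ∧ g e = (M, p) :=
    ⟨2 * e₀ + 1, by omega, by rw [← hg]; exact he₀⟩
  have hct := code_true hc _ hee hM
  have hlen : UPoly (fun u : List Bool => u.length) := UPoly.length Poly.id
  have hSe : UPoly (fun u : List Bool => (S e).eval u.length) := hlen.eval (S e)
  set r : List Bool → List Bool := fun x => enc (List.replicate (k + 1) (64 * (S e).eval x.length))
    (8 * (S e).eval x.length) (cS e ((S e).eval x.length) (pairBits x [])) with hr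
  have hrl : ∀ x, (r x).length = 2 * ((k + 1) * (64 * (S e).eval x.length)) + (k + 1) +
      2 * (8 * (S e).eval x.length) + 1 + ((S e).eval x.length + 1 + 1 +
        (e + 1 + (2 * x.length + 1))) := by
    intro x
    rw [hr]
    simp only
    rw [enc_len, length_cS, length_pairBits]
    simp
  have he8 : ∀ n, (Polynomial.C 8 * S e).eval n = 8 * (S e).eval n := fun n => by simp
  have he64 : ∀ n, (Polynomial.C 64 * S e).eval n = 64 * (S e).eval n := fun n => by simp
  have hpr : Poly r := by
    have h1 : ∀ j : ℕ, Poly (fun x : List Bool => enc (List.replicate j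
        (64 * (S e).eval x.length)) (8 * (S e).eval x.length)
        (cS e ((S e).eval x.length) (pairBits x []))) := by
      intro j
      induction j with
      | zero =>
        exact poly_pairBits ((poly_rep (hlen.eval (Polynomial.C 8 * S e))).congr fun x => by
          simp only [he8]) (poly_cS e hSe (poly_pairBits Poly.id (NPC.Poly.const [])))
      | succ j ih =>
        have h2 : ∀ x : List Bool, enc (List.replicate (j + 1) (64 * (S e).eval x.length))
            (8 * (S e).eval x.length) (cS e ((S e).eval x.length) (pairBits x [])) =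
            pairBits (List.replicate (64 * (S e).eval x.length) true)
              (enc (List.replicate j (64 * (S e).eval x.length)) (8 * (S e).eval x.length)
                (cS e ((S e).eval x.length) (pairBits x []))) := by
          intro x
          rw [List.replicate_succ', LangTrAux.enc_append]
        have h3 : Poly (fun x : List Bool => List.replicate (64 * (S e).eval x.length) true) :=
          (poly_rep (hlen.eval (Polynomial.C 64 * S e))).congr fun x => by simp only [he64]
        exact (poly_pairBits h3 ih).congr fun x => (h2 x).symm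
    exact h1 (k + 1)
  refine isSig_of_lang (false :: false :: [false]) r hpr
    (Polynomial.C 2 * (Polynomial.C (k + 1) * (Polynomial.C 64 * S e)) + Polynomial.C (k + 1) +
      Polynomial.C 2 * (Polynomial.C 8 * S e) + Polynomial.C 1 + (S e + Polynomial.C 1 +
      Polynomial.C 1 + (Polynomial.C (e + 1) + (Polynomial.C 2 * Polynomial.X + Polynomial.C 1))))
    (fun x => ?_) (fun x => ?_)
  · rw [hrl]
    simp only [Polynomial.eval_add, Polynomial.eval_mul, Polynomial.eval_C, Polynomial.eval_X]
    exact le_rfl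
  · rw [← hct x, hr]
    simp only
    rw [mem_lang_fold _ k _ (by simp), fold_sval]
    have hcont : (fun v => (fun q => orc (sysA k g S) D ([false, false, false] ++ q))
        (enc (List.replicate (k + 1) (64 * (S e).eval x.length)) (8 * (S e).eval x.length)
          (cS e ((S e).eval x.length) (pairBits x [])) ++ v)) =
        D.bl (e, x) (tv (sysA k g S) (e, x) (orc (sysA k g S) D)) := by
      funext v
      rw [← orc_on D (show (sysA k g S).ok (e, x) v from fun h => absurd h he)]
      show _ = orc (sysA k g S) D (adA k S (e, x) v)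
      rw [adA_odd he]
      show orc (sysA k g S) D _ = _
      congr 1
      rw [enc_app]
      have : cS e ((S e).eval x.length) (pairBits x []) ++ v =
          cS e ((S e).eval x.length) (pairBits x v) := by
        simp [cS, pr, pairBits]
      rw [this]
      rfl
    rw [hcont]
    have hs := hB.sip (e, x) he _ _ (hD (e, x) (tv (sysA k g S) (e, x) (orc (sysA k g S) D)))
    have hs' : sval ((S e).eval x.length) k
        (D.bl (e, x) (tv (sysA k g S) (e, x) (orc (sysA k g S) D))) =
        !(tv (sysA k g S) (e, x) (orc (sysA k g S) D)) := hs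
    have hti : tv (sysA k g S) (e, x) (orc (sysA k g S) D) = true ↔
        Ac g S e x (orc (sysA k g S) D) := tv_iff
    rw [hs', ← hti]
    cases tv (sysA k g S) (e, x) (orc (sysA k g S) D) <;> simp

theorem okF {Bk : (sysA k g S).K → Blk} (hS : ∀ e n, n + e + 1 ≤ (S e).eval n)
    (hfor : ∀ c : ℕ × List Bool, ∀ u N Λ : ℕ, 8 * u ≤ lev S c →
      Λ + 16 * lev S c + 84 + k ≤ 2 ^ (2 * u) →
      Fools (Bk c) k u N Λ (107 * LB u N k / 8 ^ (lev S c))) : OkF (sysA k g S) Bk k := by
  intro n u T Λ hn hu hΛ h17
  obtain ⟨C, hCn, hCm, hCp, hCs⟩ := exists_list hS n T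
  have hLB : LB u (2 ^ (u + 11)) k = (LQ u k : ℝ) := by
    unfold LB LQ
    push_cast
    ring
  refine ⟨C, hCn, hCm, hCp, fun c => 107 * LB u (2 ^ (u + 11)) k / 8 ^ (lev S c),
    fun c _ => ?_, fun c hc => ?_, ?_⟩
  · have := one_le_LB u (2 ^ (u + 11)) k
    positivity
  · obtain ⟨h1, h2⟩ := (hCm c).1 hc
    exact hfor c u _ Λ (by omega) (by omega)
  · refine (le_of_eq (hCs _)).trans ?_
    rw [hLB]
    exact sum_lev_le hS n T (Nat.cast_nonneg _)

/-- **The world.** -/
theorem worldA (k : ℕ) :
    ∃ A : Oracle, (∀ L, IsPSPACE A L → IsBQP A L ∧ IsSig A (k + 1) L) ∧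
      ∃ L, IsSig A (k + 1) L ∧ ∀ (V : List Bool → List Bool) (h : ℕ → ℕ), IsFP A V →
        (∀ c : ℕ, ∀ᶠ n : ℕ in atTop, c * h n ≤ n) → ∃ x, ¬ (x ∈ L ↔
          Quant (2 ^ h x.length) V k true
            (pairBits (List.replicate (2 ^ h x.length) true) x)) := by
  obtain ⟨g₀, hg₀⟩ := CC.exists_enum
  set g : ℕ → SAlg × Polynomial ℕ := fun e => g₀ (e / 2) with hg
  have hg1 : ∀ e, g (2 * e) = g (2 * e + 1) := fun e => by
    rw [hg]
    simp only
    congr 1
    omega
  have hg2 : Function.Surjective fun e => g (2 * e) := fun y => by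
    obtain ⟨e, he⟩ := hg₀ y
    refine ⟨e, ?_⟩
    rw [hg]
    simp only
    rw [← he]
    congr 1
    omega
  obtain ⟨S₀, hc₀⟩ := RU.exists_kr g
  set S : ℕ → Polynomial ℕ := fun e => S₀ e + Polynomial.C 5 with hS
  have hSe : ∀ e n, (S e).eval n = (S₀ e).eval n + 5 := fun e n => by rw [hS]; simp
  have hc : Kr g S := ⟨fun e n => by rw [hSe]; have := hc₀.big e n; omega,
    fun e x a ha => by rw [hSe]; have := hc₀.loc e x a ha; omega⟩
  have h5 : ∀ c : ℕ × List Bool, 5 ≤ lev S c := fun c => by
    show 5 ≤ (S c.1).eval c.2.length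
    rw [hSe]
    omega
  choose BF hBF1 hBF2 hBF3 using exists_for
  choose BS hBS1 hBS2 using fun c : ℕ × List Bool => exists_sipB (h5 c) k
  set Bk : (sysA k g S).K → Blk := fun c : ℕ × List Bool =>
    if c.1 % 2 = 0 then BF (lev S c) else BS c with hBk
  have hBe : ∀ c : ℕ × List Bool, c.1 % 2 = 0 → Bk c = BF (lev S c) := fun c h => if_pos h
  have hBo : ∀ c : ℕ × List Bool, ¬ c.1 % 2 = 0 → Bk c = BS c := fun c h => if_neg h
  have hB : BkA k g S Bk := by
    refine ⟨fun c h V hV => ?_, fun c h V hV => ?_, fun c h t V hV => ?_⟩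
    · rw [hBe c h] at hV
      exact (hBF1 _ V).1 hV
    · rw [hBe c h] at hV
      exact (hBF2 _ V).1 hV
    · rw [hBo c h] at hV
      exact (hBS1 c t V).1 hV
  have hok : OkF (sysA k g S) Bk k := by
    refine okF hc.big fun c u N Λ hu hΛ => ?_
    by_cases h : c.1 % 2 = 0
    · rw [hBe c h]
      exact hBF3 _ k u N Λ hΛ
    · rw [hBo c h]
      exact hBS2 c u N Λ hu (by omega)
  have hne : Nonempty (Alg × ℕ) := ⟨⟨⟨fun _ => [], CC.const_polyTime _, 0⟩, 0⟩⟩
  obtain ⟨en, hen⟩ := exists_surjective_nat (Alg × ℕ)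
  choose cc hcc1 hcc using sizes
  obtain ⟨κ, hκ, hP⟩ := finite_ext (β := Lv (sysA k g S)) (GLv Bk)
    (fun j κ => Req cc (orc (sysA k g S) (dat (sysA k g S) κ)) ((en j).1, k, (en j).2))
    (exists_good Bk) (fun j N₀ κ hκ =>
      stage Bk cc hcc ((en j).1, k, (en j).2) hok N₀ κ hκ)
  refine ⟨orc (sysA k g S) (dat (sysA k g S) κ), fun L hL =>
    ⟨bqp_of_pspace hg2 hc hB (good_dat hκ) hL, sig_of_pspace hg1 hg2 hc hB (good_dat hκ) hL⟩,
    Pool.Agent.H591R3.PHG.lang k (fo (orc (sysA k g S) (dat (sysA k g S) κ))),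
    RU.lang_sig' _ k, fun V h hV hh => ?_⟩
  refine free_levels V h hV hh cc k (fun M => hcc1 M k) fun M i => ?_
  obtain ⟨j, hj⟩ := hen (M, i)
  have := hP j
  rw [hj] at this
  exact this

end Pool.Agent.H9x.SP
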